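import Pool.Agent.ProdSyn.Mean

/-!
Colourings of words, refined downwards so that words with the same colour have almost the same
law of the colour of their one-letter extensions.
-/

open scoped ENNReal Topology
open Finset Filter

namespace ProdSyn

variable {X : Type*}

lemma exists_code {α β : Type*} (g : α → β) (h : (Set.range g).Finite) :
    ∃ (c : α → ℕ) (K : ℕ), (∀ z, c z < K) ∧ ∀ z z', c z = c z' → g z = g z' := by
  classical
  haveI : Fintype (Set.range g) := h.fintype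
  refine ⟨fun z => ((Fintype.equivFin (Set.range g)) ⟨g z, z, rfl⟩ : Fin _).val,
    Fintype.card (Set.range g), fun z => Fin.is_lt _, fun z z' hz => ?_⟩
  have h1 := Fin.ext hz
  have h2 := (Fintype.equivFin (Set.range g)).injective h1
  exact congrArg Subtype.val h2

lemma refine_color (m : Mean X) (r : ℕ) (σ : List X → ℕ) (Kσ : ℕ) (hσ : ∀ z, σ z < Kσ)
    (η : ℝ≥0∞) (hη : η ≠ 0) (c' : List X → ℕ) (K' : ℕ) (hc' : ∀ z, c' z < K') :
    ∃ (c : List X → ℕ) (K : ℕ), (∀ z, c z < K) ∧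
      (∀ z z', c z = c z' → ∀ i < r, σ (z.drop i) = σ (z'.drop i)) ∧
      (∀ z z', c z = c z' → ∀ k, m.toFun (fun v => ind (c' (z ++ [v]) = k)) ≤
        m.toFun (fun v => ind (c' (z' ++ [v]) = k)) + η) := by
  classical
  obtain ⟨D, hD⟩ := ENNReal.exists_nat_mul_gt (b := 1) hη (by simp)
  have hD0 : 0 < D := by
    rcases Nat.eq_zero_or_pos D with h | h
    · subst h; simp at hD
    · exact h
  set q : ℕ → List X → ℝ≥0∞ := fun k z => m.toFun (fun v => ind (c' (z ++ [v]) = k)) with hq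
  have hq1 : ∀ k z, q k z ≤ 1 := fun k z =>
    (m.mono fun v => ind_le_one _).trans m.one.le
  have hqt : ∀ k z, q k z ≠ ∞ := fun k z => ne_top_of_le_ne_top (by simp) (hq1 k z)
  have hfl : ∀ k z, ⌊(q k z).toReal * D⌋₊ < D + 1 := by
    intro k z
    have h1 : (q k z).toReal ≤ 1 := by
      have := ENNReal.toReal_mono (by simp) (hq1 k z)
      simpa using this
    have h2 : ⌊(q k z).toReal * D⌋₊ ≤ D := by
      apply Nat.floor_le_of_le
      have : (0:ℝ) ≤ D := by positivity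
      nlinarith
    omega
  let g : List X → (Fin r → Fin Kσ) × (Fin K' → Fin (D + 1)) := fun z =>
    (fun i => ⟨σ (z.drop i), hσ _⟩, fun k => ⟨⌊(q k z).toReal * D⌋₊, hfl k z⟩)
  obtain ⟨c, K, hcK, hc⟩ := exists_code g (Set.toFinite _)
  refine ⟨c, K, hcK, ?_, ?_⟩
  · intro z z' h i hi
    have h1 := congrFun (congrArg Prod.fst (hc z z' h)) ⟨i, hi⟩
    exact congrArg Fin.val h1
  · intro z z' h k
    rcases Nat.lt_or_ge k K' with hk | hk
    · have h1 := congrArg Fin.val (congrFun (congrArg Prod.snd (hc z z' h)) ⟨k, hk⟩)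
      have h2 : ⌊(q k z).toReal * D⌋₊ = ⌊(q k z').toReal * D⌋₊ := h1
      have h3 : (q k z).toReal * D < ⌊(q k z).toReal * D⌋₊ + 1 := Nat.lt_floor_add_one _
      have h4 : (⌊(q k z').toReal * D⌋₊ : ℝ) ≤ (q k z').toReal * D :=
        Nat.floor_le (by positivity)
      have h5 : (q k z).toReal * D ≤ (q k z').toReal * D + 1 := by
        rw [h2] at h3; linarith
      have h6 : (D : ℝ≥0∞) * q k z ≤ D * q k z' + D * η := by
        refine le_trans ?_ (add_le_add le_rfl hD.le)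
        rw [← ENNReal.toReal_le_toReal (by
          exact ENNReal.mul_ne_top (by simp) (hqt _ _)) (by
          exact ENNReal.add_ne_top.2 ⟨ENNReal.mul_ne_top (by simp) (hqt _ _), by simp⟩)]
        rw [ENNReal.toReal_add (ENNReal.mul_ne_top (by simp) (hqt _ _)) (by simp)]
        simp only [ENNReal.toReal_mul, ENNReal.toReal_natCast, ENNReal.toReal_one]
        linarith
      rw [← mul_add] at h6
      exact (ENNReal.mul_le_mul_iff_right (by exact_mod_cast hD0.ne') (by simp)).1 h6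
    · have : q k z = 0 := by
        have : q k z = m.toFun (fun _ => 0) := m.congr fun v => ind_false (by
          have := hc' (z ++ [v]); omega)
        rw [this, m.zero]
      show q k z ≤ _
      rw [this]
      simp

lemma exists_colors (m : Mean X) (r : ℕ) (σ : List X → ℕ) (Kσ : ℕ) (hσ : ∀ z, σ z < Kσ)
    (δ : ℝ≥0∞) (hδ : δ ≠ 0) :
    ∃ (c : ℕ → List X → ℕ) (K : ℕ → ℕ), (∀ j z, c j z < K j) ∧
      (∀ j z z', c j z = c j z' → ∀ i < r, σ (z.drop i) = σ (z'.drop i)) ∧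
      (∀ j, j + 1 < r → ∀ z z', c j z = c j z' → ∀ k,
        m.toFun (fun v => ind (c (j + 1) (z ++ [v]) = k)) ≤
          m.toFun (fun v => ind (c (j + 1) (z' ++ [v]) = k)) + δ / (K (j + 1))) := by
  classical
  -- states
  let Q : ((List X → ℕ) × ℕ) → Prop := fun s => (∀ z, s.1 z < s.2) ∧
    ∀ z z', s.1 z = s.1 z' → ∀ i < r, σ (z.drop i) = σ (z'.drop i)
  have hbase : ∃ s, Q s := by
    obtain ⟨c, K, h1, h2⟩ := exists_code
      (fun z : List X => (fun i : Fin r => (⟨σ (z.drop i), hσ _⟩ : Fin Kσ))) (Set.toFinite _)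
    refine ⟨(c, K), h1, fun z z' h i hi => ?_⟩
    have h3 := congrFun (h2 z z' h) ⟨i, hi⟩
    exact congrArg Fin.val h3
  have hstep : ∀ s : {s // Q s}, ∃ s' : {s // Q s}, ∀ z z', s'.1.1 z = s'.1.1 z' → ∀ k,
        m.toFun (fun v => ind (s.1.1 (z ++ [v]) = k)) ≤
          m.toFun (fun v => ind (s.1.1 (z' ++ [v]) = k)) + δ / (s.1.2) := by
    intro s
    have hη : δ / (s.1.2 : ℝ≥0∞) ≠ 0 := by
      rw [Ne, ENNReal.div_eq_zero_iff]
      push Not
      exact ⟨hδ, by simp⟩
    obtain ⟨c, K, h1, h2, h3⟩ := refine_color m r σ Kσ hσ _ hη s.1.1 s.1.2 s.2.1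
    exact ⟨⟨(c, K), h1, h2⟩, h3⟩
  choose nxt hnxt using hstep
  obtain ⟨s0, hs0⟩ := hbase
  let S : ℕ → {s // Q s} := fun n => Nat.rec ⟨s0, hs0⟩ (fun _ s => nxt s) n
  have hS : ∀ n, S (n + 1) = nxt (S n) := fun n => rfl
  refine ⟨fun j => (S (r - 1 - j)).1.1, fun j => (S (r - 1 - j)).1.2,
    fun j z => (S (r - 1 - j)).2.1 z, fun j z z' h => (S (r - 1 - j)).2.2 z z' h, ?_⟩
  intro j hj z z' h k
  have e : r - 1 - j = (r - 1 - (j + 1)) + 1 := by omega
  have h' := hnxt (S (r - 1 - (j + 1))) z z'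
  rw [← hS, ← e] at h'
  exact h' h k

end ProdSyn
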