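import Pool.Agent.ProdSyn.Mean

/-!
The coupling functional.
-/

open scoped ENNReal Topology
open Finset Filter

namespace ProdSyn

variable {X : Type*}

/-- types of colour paths -/
def PT (K : ℕ → ℕ) : ℕ → Type
  | 0 => Unit
  | t + 1 => PT K t × Fin (K (t + 1))

noncomputable instance (K : ℕ → ℕ) : ∀ t, Fintype (PT K t)
  | 0 => inferInstanceAs (Fintype Unit)
  | t + 1 => by
      haveI := instFintypePT K t
      exact inferInstanceAs (Fintype (PT K t × Fin (K (t + 1))))

/-- colour path of a word -/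
def path (c : ℕ → List X → ℕ) (K : ℕ → ℕ) (hc : ∀ j z, c j z < K j) :
    (t : ℕ) → List X → PT K t
  | 0, _ => ()
  | t + 1, z => (path c K hc t (z.take t), ⟨c (t + 1) z, hc _ _⟩)

section
variable (c : ℕ → List X → ℕ) (K : ℕ → ℕ) (hc : ∀ j z, c j z < K j)

lemma path_color : ∀ (t : ℕ) (z z' : List X), z.length = t → z'.length = t →
    path c K hc t z = path c K hc t z' →
    ∀ j, 1 ≤ j → j ≤ t → c j (z.take j) = c j (z'.take j) := by
  intro t
  induction t with
  | zero => intro z z' _ _ _ j h1 h2; omega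
  | succ t ih =>
    intro z z' hz hz' h j h1 h2
    have ha := congrArg Prod.fst h
    have hb := congrArg Fin.val (congrArg Prod.snd h)
    rcases Nat.lt_or_ge j (t + 1) with hj | hj
    · have := ih (z.take t) (z'.take t) (by simp [hz]) (by simp [hz']) ha j h1 (by omega)
      rwa [List.take_take, List.take_take, min_eq_left (by omega)] at this
    · have hj' : j = t + 1 := by omega
      subst hj'
      rw [List.take_of_length_le (by omega), List.take_of_length_le (by omega)]
      exact hb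

lemma path_color_last (t : ℕ) (z z' : List X)
    (h : path c K hc (t + 1) z = path c K hc (t + 1) z') : c (t + 1) z = c (t + 1) z' :=
  congrArg Fin.val (congrArg Prod.snd h)

lemma path_snoc (t : ℕ) (z : List X) (v : X) (hz : z.length = t) :
    path c K hc (t + 1) (z ++ [v]) = (path c K hc t z, ⟨c (t + 1) (z ++ [v]), hc _ _⟩) := by
  show (path c K hc t ((z ++ [v]).take t), _) = _
  rw [List.take_append_of_le_length (by omega), List.take_of_length_le (by omega)]

lemma sum_ind {ι : Type*} [Fintype ι] (x : ι) : ∑ k : ι, ind (x = k) = 1 := by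
  classical
  rw [Finset.sum_eq_single x]
  · exact ind_true rfl
  · intro b _ hb; exact ind_false (fun h => hb h.symm)
  · intro h; exact absurd (Finset.mem_univ _) h

variable (m : Mean X)

/-- mass of a colour path -/
noncomputable def W (t : ℕ) (κ : PT K t) : ℝ≥0∞ := m.iter t (fun z => ind (path c K hc t z = κ))

lemma W_def (t : ℕ) (κ : PT K t) :
    W c K hc m t κ = m.iter t (fun z => ind (path c K hc t z = κ)) := rfl

lemma W_le_one (t : ℕ) (κ : PT K t) : W c K hc m t κ ≤ 1 :=
  m.iter_le_const _ _ (by simp) fun _ _ => ind_le_one _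

lemma W_ne_top (t : ℕ) (κ : PT K t) : W c K hc m t κ ≠ ∞ :=
  ne_top_of_le_ne_top (by simp) (W_le_one c K hc m t κ)

lemma sum_W (t : ℕ) : ∑ κ, W c K hc m t κ = 1 := by
  unfold W
  rw [← m.iter_sum]
  have : (fun l => ∑ i, ind (path c K hc t l = i)) = fun _ => (1 : ℝ≥0∞) :=
    funext fun l => sum_ind _
  rw [this, m.iter_const _ _ (by simp)]

/-- probability that the next colour is `k` -/
noncomputable def qn (t : ℕ) (k : ℕ) (z : List X) : ℝ≥0∞ :=
  m.toFun (fun v => ind (c (t + 1) (z ++ [v]) = k))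

lemma qn_le_one (t k : ℕ) (z : List X) : qn c m t k z ≤ 1 :=
  (m.mono fun v => ind_le_one _).trans m.one.le

lemma ind_path_snoc (t : ℕ) (z : List X) (v : X) (hz : z.length = t) (κ : PT K t)
    (k : Fin (K (t + 1))) :
    ind (path c K hc (t + 1) (z ++ [v]) = (κ, k)) =
      ind (path c K hc t z = κ) * ind (c (t + 1) (z ++ [v]) = k) := by
  rw [← ind_and]
  apply ind_congr
  rw [path_snoc c K hc t z v hz]
  constructor
  · intro h
    exact ⟨congrArg Prod.fst h, congrArg Fin.val (congrArg Prod.snd h)⟩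
  · rintro ⟨h1, h2⟩
    exact Prod.ext h1 (Fin.ext h2)

lemma W_succ (t : ℕ) (κ : PT K t) (k : Fin (K (t + 1))) :
    W c K hc m (t + 1) (κ, k) =
      m.iter t (fun z => ind (path c K hc t z = κ) * qn c m t k z) := by
  unfold W
  rw [m.iter_snoc]
  refine m.iter_congr t fun z hz => ?_
  unfold qn
  rw [← m.smul _ (ne_top_of_le_ne_top (by simp) (ind_le_one _))]
  exact m.congr fun v => ind_path_snoc c K hc t z v hz κ k

/-- the coupling functional: `x₁ ++ x₂` is a free word of length `t + n`, `y` is a copy of `x₁`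
with the same colour path -/
noncomputable def J (t n : ℕ) (Φ : List X → List X → ℝ≥0∞) : ℝ≥0∞ :=
  ∑ κ : PT K t, open Classical in if W c K hc m t κ = 0 then 0 else
    (W c K hc m t κ)⁻¹ * m.iter t (fun x₁ => ind (path c K hc t x₁ = κ) *
      m.iter n (fun x₂ => m.iter t (fun y => ind (path c K hc t y = κ) * Φ (x₁ ++ x₂) y)))

lemma J_mono (t n : ℕ) {Φ Ψ : List X → List X → ℝ≥0∞}
    (h : ∀ x₁ x₂ y, x₁.length = t → x₂.length = n → y.length = t →
      path c K hc t x₁ = path c K hc t y → Φ (x₁ ++ x₂) y ≤ Ψ (x₁ ++ x₂) y) :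
    J c K hc m t n Φ ≤ J c K hc m t n Ψ := by
  classical
  refine Finset.sum_le_sum fun κ _ => ?_
  by_cases hW : W c K hc m t κ = 0
  · rw [if_pos hW, if_pos hW]
  · rw [if_neg hW, if_neg hW]
    refine mul_le_mul_right ?_ _
    refine m.iter_mono _ fun x₁ h1 => ?_
    by_cases hp : path c K hc t x₁ = κ
    · refine mul_le_mul_right ?_ _
      refine m.iter_mono _ fun x₂ h2 => m.iter_mono _ fun y hy => ?_
      by_cases hp' : path c K hc t y = κ
      · exact mul_le_mul_right (h x₁ x₂ y h1 h2 hy (hp.trans hp'.symm)) _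
      · rw [ind_false hp', zero_mul, zero_mul]
    · rw [ind_false hp, zero_mul, zero_mul]

lemma J_sum (t n : ℕ) {ι : Type*} (s : Finset ι) (Φ : ι → List X → List X → ℝ≥0∞) :
    J c K hc m t n (fun x y => ∑ i ∈ s, Φ i x y) = ∑ i ∈ s, J c K hc m t n (Φ i) := by
  classical
  unfold J
  rw [Finset.sum_comm]
  refine Finset.sum_congr rfl fun κ _ => ?_
  by_cases hW : W c K hc m t κ = 0
  · simp [if_pos hW]
  · simp only [if_neg hW]
    rw [← Finset.mul_sum]
    congr 1
    rw [← m.iter_sum]
    refine m.iter_congr _ fun x₁ _ => ?_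
    rw [← Finset.mul_sum, ← m.iter_sum]
    congr 1
    refine m.iter_congr _ fun x₂ _ => ?_
    rw [← m.iter_sum]
    refine m.iter_congr _ fun y _ => ?_
    rw [← Finset.mul_sum]

lemma J_le_one (t n : ℕ) {Φ : List X → List X → ℝ≥0∞}
    (h : ∀ x₁ x₂ y, x₁.length = t → x₂.length = n → y.length = t →
      path c K hc t x₁ = path c K hc t y → Φ (x₁ ++ x₂) y ≤ 1) :
    J c K hc m t n Φ ≤ 1 := by
  classical
  refine (J_mono c K hc m t n (Ψ := fun _ _ => 1) h).trans
    (le_of_le_of_eq ?_ (sum_W c K hc m t))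
  unfold J
  refine Finset.sum_le_sum fun κ _ => ?_
  by_cases hW : W c K hc m t κ = 0
  · rw [if_pos hW]; simp
  · rw [if_neg hW]
    have hWt := W_ne_top c K hc m t κ
    have e1 : m.iter t (fun y => ind (path c K hc t y = κ) * 1) = W c K hc m t κ :=
      m.iter_congr _ fun y _ => mul_one _
    have e2 : m.iter t (fun x₁ => ind (path c K hc t x₁ = κ) *
      m.iter n (fun x₂ => m.iter t (fun y => ind (path c K hc t y = κ) * 1)))
        = W c K hc m t κ * W c K hc m t κ := by
      rw [e1, m.iter_const _ _ hWt]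
      rw [show (fun x₁ => ind (path c K hc t x₁ = κ) * W c K hc m t κ) =
        fun x₁ => W c K hc m t κ * ind (path c K hc t x₁ = κ) from funext fun _ => mul_comm _ _]
      rw [m.iter_smul _ _ hWt]
      rfl
    rw [e2, ← mul_assoc, ENNReal.inv_mul_cancel hW hWt, one_mul]

lemma J_eval (t n : ℕ) (G : List X → ℝ≥0∞) (hG : ∀ l, G l ≤ 1) :
    J c K hc m t n (fun x y => G (x.drop t ++ y)) = m.iter (n + t) G := by
  classical
  set V : PT K t → ℝ≥0∞ := fun κ =>
    m.iter n (fun x₂ => m.iter t (fun y => ind (path c K hc t y = κ) * G (x₂ ++ y))) with hV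
  have hVW : ∀ κ, V κ ≤ W c K hc m t κ := by
    intro κ
    refine m.iter_le_const _ _ (W_ne_top c K hc m t κ) fun x₂ _ => m.iter_mono _ fun y _ => ?_
    exact mul_le_of_le_one_right (by simp) (hG _)
  have e1 : ∀ κ : PT K t, (if W c K hc m t κ = 0 then 0 else
    (W c K hc m t κ)⁻¹ * m.iter t (fun x₁ => ind (path c K hc t x₁ = κ) *
      m.iter n (fun x₂ => m.iter t (fun y => ind (path c K hc t y = κ) *
        G ((x₁ ++ x₂).drop t ++ y))))) = V κ := by
    intro κ
    by_cases hW : W c K hc m t κ = 0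
    · rw [if_pos hW]
      exact (le_antisymm ((hVW κ).trans hW.le) (by simp)).symm
    · rw [if_neg hW]
      have hWt := W_ne_top c K hc m t κ
      have hVt : V κ ≠ ∞ := ne_top_of_le_ne_top hWt (hVW κ)
      have : m.iter t (fun x₁ => ind (path c K hc t x₁ = κ) *
        m.iter n (fun x₂ => m.iter t (fun y => ind (path c K hc t y = κ) *
          G ((x₁ ++ x₂).drop t ++ y)))) = V κ * W c K hc m t κ := by
        rw [W, ← m.iter_smul _ _ hVt]
        refine m.iter_congr _ fun x₁ h1 => ?_
        rw [mul_comm]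
        congr 1
        refine m.iter_congr _ fun x₂ _ => m.iter_congr _ fun y _ => ?_
        rw [List.drop_append_of_le_length (by omega), List.drop_of_length_le (by omega),
          List.nil_append]
      rw [this, mul_comm, mul_assoc, ENNReal.mul_inv_cancel hW hWt, mul_one]
  show ∑ κ : PT K t, _ = _
  rw [Finset.sum_congr rfl fun κ _ => e1 κ, m.iter_append, hV, ← m.iter_sum]
  refine m.iter_congr _ fun x₂ _ => ?_
  rw [← m.iter_sum]
  refine m.iter_congr _ fun y _ => ?_
  rw [← Finset.sum_mul, sum_ind, one_mul]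

/-- one step of the comparison -/
lemma J_step (t n : ℕ) (δ : ℝ≥0∞) (hδ : δ ≠ ∞)
    (hq : ∀ z z', z.length = t → z'.length = t → path c K hc t z = path c K hc t z' → ∀ k,
      qn c m t k z ≤ qn c m t k z' + δ / K (t + 1))
    (Φ : List X → List X → ℝ≥0∞) (hΦ : ∀ x y, Φ x y ≤ 1) :
    J c K hc m t (n + 1) Φ ≤ J c K hc m (t + 1) n (fun x y => Φ x (y.take t)) + δ := by
  classical
  rcases isEmpty_or_nonempty (List X) with hemp | hne
  · exact (hemp.false []).elim
  have hK0 : (K (t + 1) : ℝ≥0∞) ≠ 0 := by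
    have := hc (t + 1) []
    exact_mod_cast (by omega : K (t + 1) ≠ 0)
  set η : ℝ≥0∞ := δ / K (t + 1) with hη
  have hηt : η ≠ ∞ := by
    rw [hη]; exact ENNReal.div_ne_top hδ hK0
  set w : PT K t → ℝ≥0∞ := W c K hc m t with hw
  set w' : PT K (t + 1) → ℝ≥0∞ := W c K hc m (t + 1) with hw'
  -- the inner integrals
  set Y : PT K t → List X → ℝ≥0∞ := fun κ x =>
    m.iter t (fun y => ind (path c K hc t y = κ) * Φ x y) with hY
  set Y' : PT K t → Fin (K (t + 1)) → List X → ℝ≥0∞ := fun κ k x =>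
    m.iter (t + 1) (fun y => ind (path c K hc (t + 1) y = (κ, k)) * Φ x (y.take t)) with hY'
  have hYle : ∀ κ x, Y κ x ≤ w κ := fun κ x => m.iter_mono _ fun y _ =>
    mul_le_of_le_one_right (by simp) (hΦ _ _)
  have hYt : ∀ κ x, Y κ x ≠ ∞ := fun κ x =>
    ne_top_of_le_ne_top (W_ne_top c K hc m t κ) (hYle κ x)
  have hY'eq : ∀ κ k x, Y' κ k x =
      m.iter t (fun y => ind (path c K hc t y = κ) * qn c m t k y * Φ x y) := by
    intro κ k x
    rw [hY']
    simp only
    rw [m.iter_snoc]
    refine m.iter_congr _ fun y hy => ?_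
    have : ∀ v, ind (path c K hc (t + 1) (y ++ [v]) = (κ, k)) * Φ x ((y ++ [v]).take t)
        = (ind (path c K hc t y = κ) * Φ x y) * ind (c (t + 1) (y ++ [v]) = k) := by
      intro v
      rw [ind_path_snoc c K hc t y v hy, List.take_append_of_le_length (by omega),
        List.take_of_length_le (by omega)]
      ring
    rw [m.congr this, m.smul _ (ENNReal.mul_ne_top
      (ne_top_of_le_ne_top (by simp) (ind_le_one _)) (ne_top_of_le_ne_top (by simp) (hΦ _ _)))]
    unfold qn
    ring
  -- A κ k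
  set A : PT K t → Fin (K (t + 1)) → ℝ≥0∞ := fun κ k =>
    m.iter (t + 1) (fun x' => ind (path c K hc (t + 1) x' = (κ, k)) *
      m.iter n (fun x₂ => Y κ (x' ++ x₂))) with hA
  have hI : ∀ κ, m.iter t (fun x₁ => ind (path c K hc t x₁ = κ) *
      m.iter (n + 1) (fun x₂ => m.iter t (fun y => ind (path c K hc t y = κ) *
        Φ (x₁ ++ x₂) y))) = ∑ k, A κ k := by
    intro κ
    rw [hA]
    simp only
    rw [← m.iter_sum]
    rw [m.iter_snoc]
    refine m.iter_congr _ fun x₁ h1 => ?_
    rw [m.iter_succ, ← m.smul _ (ne_top_of_le_ne_top (by simp) (ind_le_one _))]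
    refine m.congr fun v => ?_
    have : ∀ k : Fin (K (t + 1)), ind (path c K hc (t + 1) (x₁ ++ [v]) = (κ, k)) *
        m.iter n (fun x₂ => Y κ ((x₁ ++ [v]) ++ x₂)) =
        (ind (path c K hc t x₁ = κ) * m.iter n (fun x₂ => Y κ ((x₁ ++ [v]) ++ x₂))) *
          ind ((⟨c (t + 1) (x₁ ++ [v]), hc _ _⟩ : Fin (K (t + 1))) = k) := by
      intro k
      rw [ind_path_snoc c K hc t x₁ v h1]
      have : ind (c (t + 1) (x₁ ++ [v]) = ↑k) =
          ind ((⟨c (t + 1) (x₁ ++ [v]), hc _ _⟩ : Fin (K (t + 1))) = k) :=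
        ind_congr (by rw [Fin.ext_iff])
      rw [this]
      ring
    rw [Finset.sum_congr rfl fun k _ => this k, ← Finset.mul_sum, sum_ind, mul_one]
    congr 1
    refine m.iter_congr _ fun x₂ _ => ?_
    show m.iter t _ = m.iter t _
    refine m.iter_congr _ fun y _ => ?_
    simp
  have hAle : ∀ κ k, A κ k ≤ w' (κ, k) := by
    intro κ k
    refine m.iter_mono _ fun x' _ => ?_
    refine mul_le_of_le_one_right (by simp) ?_
    refine m.iter_le_const _ _ (by simp) fun x₂ _ => (hYle κ _).trans (W_le_one c K hc m t κ)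
  -- term of the right-hand side
  set T : PT K t → Fin (K (t + 1)) → ℝ≥0∞ := fun κ k => if w' (κ, k) = 0 then 0 else
    (w' (κ, k))⁻¹ * m.iter (t + 1) (fun x₁ => ind (path c K hc (t + 1) x₁ = (κ, k)) *
      m.iter n (fun x₂ => Y' κ k (x₁ ++ x₂))) with hT
  have hmain : ∀ κ k, w κ ≠ 0 → (w κ)⁻¹ * A κ k ≤ T κ k + η * w κ := by
    intro κ k hwκ
    have hwt : w κ ≠ ∞ := W_ne_top c K hc m t κ
    by_cases hW' : w' (κ, k) = 0
    · have : A κ k = 0 := le_antisymm ((hAle κ k).trans hW'.le) (by simp)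
      rw [this, mul_zero]; simp
    · have hw't : w' (κ, k) ≠ ∞ := W_ne_top c K hc m (t + 1) _
      set θ : ℝ≥0∞ := w' (κ, k) * (w κ)⁻¹ with hθ
      have hθt : θ ≠ ∞ := ENNReal.mul_ne_top hw't (ENNReal.inv_ne_top.2 hwκ)
      have hθle : ∀ y : List X, y.length = t → path c K hc t y = κ → θ ≤ qn c m t k y + η := by
        intro y hy hyκ
        have h1 : w' (κ, k) ≤ (qn c m t k y + η) * w κ := by
          rw [hw', W_succ, hw, W_def, ← m.iter_smul _ _ (ENNReal.add_ne_top.2
            ⟨ne_top_of_le_ne_top (by simp) (qn_le_one c m t k y), hηt⟩)]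
          refine m.iter_mono _ fun z hz => ?_
          by_cases hzκ : path c K hc t z = κ
          · rw [mul_comm]
            refine mul_le_mul_left ?_ _
            exact hq z y hz hy (hzκ.trans hyκ.symm) k
          · rw [ind_false hzκ]; simp
        rw [hθ, ← div_eq_mul_inv]
        exact ENNReal.div_le_of_le_mul h1
      have hθY : ∀ x, θ * Y κ x ≤ Y' κ k x + η * w κ := by
        intro x
        rw [hY'eq, hY]
        simp only
        rw [← m.iter_smul _ _ hθt, hw, W_def, ← m.iter_smul _ _ hηt, ← m.iter_add]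
        refine m.iter_mono _ fun y hy => ?_
        by_cases hyκ : path c K hc t y = κ
        · rw [ind_true hyκ]
          simp only [one_mul, mul_one]
          calc θ * Φ x y ≤ (qn c m t k y + η) * Φ x y := mul_le_mul_left (hθle y hy hyκ) _
            _ = qn c m t k y * Φ x y + η * Φ x y := by ring
            _ ≤ qn c m t k y * Φ x y + η := by
                gcongr
                exact mul_le_of_le_one_right (by simp) (hΦ _ _)
        · rw [ind_false hyκ]; simp
      have hθA : θ * A κ k ≤ m.iter (t + 1) (fun x₁ => ind (path c K hc (t + 1) x₁ = (κ, k)) *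
          m.iter n (fun x₂ => Y' κ k (x₁ ++ x₂))) + (η * w κ) * w' (κ, k) := by
        rw [hA]
        simp only
        rw [← m.iter_smul _ _ hθt, hw',
          show W c K hc m (t + 1) (κ, k) =
            m.iter (t + 1) (fun z => ind (path c K hc (t + 1) z = (κ, k))) from rfl, ← m.iter_smul _ _ (ENNReal.mul_ne_top hηt hwt),
          ← m.iter_add]
        refine m.iter_mono _ fun x₁ _ => ?_
        have : θ * m.iter n (fun x₂ => Y κ (x₁ ++ x₂)) ≤
            m.iter n (fun x₂ => Y' κ k (x₁ ++ x₂)) + η * w κ := by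
          rw [← m.iter_smul _ _ hθt]
          refine (m.iter_mono n (G := fun x₂ => Y' κ k (x₁ ++ x₂) + η * w κ)
            fun x₂ _ => hθY _).trans ?_
          rw [m.iter_add, m.iter_const _ _ (ENNReal.mul_ne_top hηt hwt)]
        calc θ * (ind (path c K hc (t + 1) x₁ = (κ, k)) * m.iter n (fun x₂ => Y κ (x₁ ++ x₂)))
            = ind (path c K hc (t + 1) x₁ = (κ, k)) *
              (θ * m.iter n (fun x₂ => Y κ (x₁ ++ x₂))) := by ring
          _ ≤ ind (path c K hc (t + 1) x₁ = (κ, k)) *
              (m.iter n (fun x₂ => Y' κ k (x₁ ++ x₂)) + η * w κ) := by gcongr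
          _ = _ := by ring
      have hfin : (w κ)⁻¹ * A κ k = (w' (κ, k))⁻¹ * (θ * A κ k) := by
        rw [hθ]
        have : (w' (κ, k))⁻¹ * (w' (κ, k) * (w κ)⁻¹ * A κ k) =
          ((w' (κ, k))⁻¹ * w' (κ, k)) * ((w κ)⁻¹ * A κ k) := by ring
        rw [this, ENNReal.inv_mul_cancel hW' hw't, one_mul]
      rw [hfin, hT]
      simp only [if_neg hW']
      refine (mul_le_mul_right hθA _).trans ?_
      rw [mul_add]
      refine add_le_add le_rfl ?_
      have : (w' (κ, k))⁻¹ * (η * w κ * w' (κ, k)) =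
        ((w' (κ, k))⁻¹ * w' (κ, k)) * (η * w κ) := by ring
      rw [this, ENNReal.inv_mul_cancel hW' hw't, one_mul]
  have hterm : ∀ κ, (if w κ = 0 then 0 else
    (w κ)⁻¹ * m.iter t (fun x₁ => ind (path c K hc t x₁ = κ) *
      m.iter (n + 1) (fun x₂ => m.iter t (fun y => ind (path c K hc t y = κ) *
        Φ (x₁ ++ x₂) y)))) ≤ ∑ k, T κ k + δ * w κ := by
    intro κ
    by_cases hwκ : w κ = 0
    · rw [if_pos hwκ]; simp
    · rw [if_neg hwκ, hI κ, Finset.mul_sum]
      refine (Finset.sum_le_sum fun k _ => hmain κ k hwκ).trans ?_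
      rw [Finset.sum_add_distrib]
      refine add_le_add le_rfl ?_
      rw [Finset.sum_const, Finset.card_univ, Fintype.card_fin, nsmul_eq_mul, ← mul_assoc]
      refine mul_le_mul_left ?_ _
      rw [hη]
      exact ENNReal.mul_div_le
  calc J c K hc m t (n + 1) Φ ≤ ∑ κ : PT K t, (∑ k, T κ k + δ * w κ) :=
        Finset.sum_le_sum fun κ _ => hterm κ
    _ = ∑ κ : PT K t, ∑ k, T κ k + δ := by
        rw [Finset.sum_add_distrib, ← Finset.mul_sum, hw, sum_W, mul_one]
    _ = _ := by
        congr 1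
        exact (Fintype.sum_prod_type (fun x : PT K t × Fin (K (t + 1)) => T x.1 x.2)).symm

end

end ProdSyn
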