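import Pool.Agent.ProdSyn.Extract
import Pool.Agent.ProdSyn.Colors
import Pool.Agent.ProdSyn.Coupling

/-!
The cyclic inequality and the abstract theorem on iterated means.
-/

open scoped ENNReal Topology
open Finset Filter

namespace ProdSyn

variable {X : Type*}

lemma sum_ind_le_one {ι : Type*} (s : Finset ι) (P : ι → Prop)
    (h : ∀ i ∈ s, ∀ j ∈ s, P i → P j → i = j) : ∑ i ∈ s, ind (P i) ≤ 1 := by
  classical
  by_cases hex : ∃ i ∈ s, P i
  · obtain ⟨i, hi, hPi⟩ := hex
    rw [Finset.sum_eq_single_of_mem i hi]
    · exact ind_le_one _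
    · intro j hj hji
      exact ind_false fun hPj => hji (h j hj i hi hPj hPi)
  · rw [Finset.sum_eq_zero]
    · simp
    · intro i hi
      exact ind_false fun hPi => hex ⟨i, hi, hPi⟩

/-- words all of whose splittings are good -/
def Good (r : ℕ) (C : ℕ → List X → List X → Prop) (l : List X) : Prop :=
  ∀ p, 1 ≤ p → p < r → C p (l.take p) (l.drop p) ∧ ¬ C p (l.drop (r - p)) (l.take (r - p))

lemma list_aux (r s s' : ℕ) (hs : s < s') (hs' : s' < r) (x₁ x₂ y : List X)
    (h1 : x₁.length = r - 1) (h2 : x₂.length = 1) (hy : y.length = r - 1) :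
    ((x₁ ++ x₂).drop s ++ y.take s).take (s' - s) = (x₁.take s').drop s ∧
    ((x₁ ++ x₂).drop s ++ y.take s).drop (s' - s) = (x₁ ++ x₂).drop s' ++ y.take s ∧
    ((x₁ ++ x₂).drop s' ++ y.take s').take (r - (s' - s)) = (x₁ ++ x₂).drop s' ++ y.take s ∧
    ((x₁ ++ x₂).drop s' ++ y.take s').drop (r - (s' - s)) = (y.take s').drop s := by
  have hxl : ((x₁ ++ x₂).drop s).length = r - s := by simp [h1, h2]; omega
  have hxl' : ((x₁ ++ x₂).drop s').length = r - s' := by simp [h1, h2]; omega
  refine ⟨?_, ?_, ?_, ?_⟩
  · rw [List.take_append_of_le_length (by omega), List.drop_append_of_le_length (by omega),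
      List.take_append_of_le_length (by simp [h1]; omega), List.drop_take]
  · rw [List.drop_append_of_le_length (by omega), List.drop_drop]
    congr 2
    omega
  · rw [List.take_append, hxl', List.take_take]
    congr 1
    · rw [List.take_of_length_le (by omega)]
    · congr 1
      omega
  · rw [List.drop_append, hxl', List.drop_of_length_le (by omega : _ ≤ r - (s' - s)),
      List.nil_append]
    congr 1
    omega

theorem cyclic_bound (m : Mean X) (r : ℕ) (hr : 1 ≤ r) (C : ℕ → List X → List X → Prop)
    (hC : ∀ p, FinSec (C p)) (δ : ℝ≥0∞) (hδ0 : δ ≠ 0) (hδ : δ ≠ ∞) :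
    (r : ℝ≥0∞) * m.iter r (fun l => ind (Good r C l)) ≤ 1 + r * (r * δ) := by
  classical
  -- the section colouring
  let sec : List X → (List X → Prop) := fun z =>
    if z.length < r then C z.length z else fun _ => False
  have hsec : (Set.range sec).Finite := by
    refine (((Set.finite_lt_nat r).biUnion (t := fun p => Set.range (C p))
      (fun p _ => hC p)).union (Set.finite_singleton (fun _ : List X => False))).subset ?_
    rintro _ ⟨z, rfl⟩
    by_cases h : z.length < r
    · left
      simp only [Set.mem_iUnion]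
      exact ⟨z.length, h, z, by simp [sec, h]⟩
    · right
      simp [sec, h]
  obtain ⟨σ, Kσ, hσK, hσ⟩ := exists_code sec hsec
  obtain ⟨c, K, hc, hc1, hc2⟩ := exists_colors m r σ Kσ hσK δ hδ0
  set g : List X → ℝ≥0∞ := fun l => ind (Good r C l) with hg
  have hg1 : ∀ l, g l ≤ 1 := fun l => ind_le_one _
  set Φ : ℕ → List X → List X → ℝ≥0∞ := fun s x y => g (x.drop s ++ y) with hΦ
  have hΦ1 : ∀ s x y, Φ s x y ≤ 1 := fun s x y => hg1 _
  have hq : ∀ t, t + 1 < r → ∀ z z' : List X, z.length = t → z'.length = t →
      path c K hc t z = path c K hc t z' → ∀ k, qn c m t k z ≤ qn c m t k z' + δ / K (t + 1) := by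
    intro t ht z z' hz hz' hp k
    apply hc2 t ht
    rcases Nat.eq_zero_or_pos t with h0 | h0
    · subst h0
      rw [List.length_eq_zero_iff.1 hz, List.length_eq_zero_iff.1 hz']
    · have := path_color c K hc t z z' hz hz' hp t h0 le_rfl
      rwa [List.take_of_length_le (by omega), List.take_of_length_le (by omega)] at this
  have hstep : ∀ s t, s ≤ t → t < r → J c K hc m s (r - s) (Φ s) ≤
      J c K hc m t (r - t) (fun x y => Φ s x (y.take s)) + ((t - s : ℕ) : ℝ≥0∞) * δ := by
    intro s t hst
    induction t, hst using Nat.le_induction with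
    | base =>
      intro _
      refine le_trans (J_mono c K hc m s (r - s) ?_) le_self_add
      intro x₁ x₂ y _ _ hy _
      rw [List.take_of_length_le (by omega)]
    | succ t hst ih =>
      intro ht
      refine (ih (by omega)).trans ?_
      have e : r - t = (r - (t + 1)) + 1 := by omega
      rw [e]
      have h1 := J_step c K hc m t (r - (t + 1)) δ hδ (hq t ht)
        (fun x y => Φ s x (y.take s)) (fun x y => hΦ1 _ _ _)
      refine (add_le_add h1 le_rfl).trans ?_
      have e2 : (fun (x y : List X) => Φ s x ((y.take t).take s)) =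
          fun (x y : List X) => Φ s x (y.take s) := by
        funext x y
        rw [List.take_take, min_eq_left hst]
      rw [e2, show t + 1 - s = (t - s) + 1 by omega]
      push_cast
      rw [add_assoc, add_mul, one_mul, add_comm δ]
  have hall : ∀ s ∈ range r, m.iter r g ≤
      J c K hc m (r - 1) 1 (fun x y => Φ s x (y.take s)) + r * δ := by
    intro s hs
    rw [Finset.mem_range] at hs
    have h1 : J c K hc m s (r - s) (Φ s) = m.iter r g := by
      have := J_eval c K hc m s (r - s) g hg1
      rw [show r - s + s = r by omega] at this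
      exact this
    rw [← h1]
    refine (hstep s (r - 1) (by omega) (by omega)).trans ?_
    rw [show r - (r - 1) = 1 by omega]
    refine add_le_add le_rfl (mul_le_mul_left ?_ _)
    exact_mod_cast (by omega : r - 1 - s ≤ r)
  have hone : J c K hc m (r - 1) 1 (fun x y => ∑ s ∈ range r, Φ s x (y.take s)) ≤ 1 := by
    refine J_le_one c K hc m (r - 1) 1 ?_
    intro x₁ x₂ y h1 h2 hy hpath
    refine sum_ind_le_one (range r) (fun s => Good r C ((x₁ ++ x₂).drop s ++ y.take s)) ?_
    -- exclusivity
    have key : ∀ s s', s < s' → s' < r → Good r C ((x₁ ++ x₂).drop s ++ y.take s) →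
        Good r C ((x₁ ++ x₂).drop s' ++ y.take s') → False := by
      intro s s' hss hs' hG hG'
      obtain ⟨l1, l2, l3, l4⟩ := list_aux r s s' hss hs' x₁ x₂ y h1 h2 hy
      have g1 := (hG (s' - s) (by omega) (by omega)).1
      have g2 := (hG' (s' - s) (by omega) (by omega)).2
      rw [l1, l2] at g1
      rw [l3, l4] at g2
      have hcol := path_color c K hc (r - 1) x₁ y h1 hy hpath s' (by omega) (by omega)
      have hσ' := hc1 s' _ _ hcol s (by omega)
      have hsec' := hσ _ _ hσ'
      have hlen1 : ((x₁.take s').drop s).length = s' - s := by simp; omega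
      have hlen2 : ((y.take s').drop s).length = s' - s := by simp; omega
      simp only [sec, hlen1, hlen2, if_pos (show s' - s < r by omega)] at hsec'
      rw [hsec'] at g1
      exact g2 g1
    intro s hs s' hs' hG hG'
    rw [Finset.mem_range] at hs hs'
    rcases lt_trichotomy s s' with h | h | h
    · exact (key s s' h hs' hG hG').elim
    · exact h
    · exact (key s' s h hs hG' hG).elim
  calc (r : ℝ≥0∞) * m.iter r g = ∑ _s ∈ range r, m.iter r g := by
        rw [Finset.sum_const, Finset.card_range, nsmul_eq_mul]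
    _ ≤ ∑ s ∈ range r, (J c K hc m (r - 1) 1 (fun x y => Φ s x (y.take s)) + r * δ) :=
        Finset.sum_le_sum hall
    _ = J c K hc m (r - 1) 1 (fun x y => ∑ s ∈ range r, Φ s x (y.take s)) + r * (r * δ) := by
        rw [Finset.sum_add_distrib, J_sum, Finset.sum_const, Finset.card_range, nsmul_eq_mul]
    _ ≤ _ := add_le_add hone le_rfl

/-- The abstract theorem: a set of `r`-letter words with iterated mean bigger than `1/r`
contains an infinite two-sided product set. -/
theorem words_theorem (m : Mean X) (r : ℕ) (hr : 1 ≤ r) (H : List X → Prop) (v : List X → ℕ)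
    (hv : ∀ n, 1 ≤ n → ∀ k, m.iter n (fun a => ind (v a = k)) = 0)
    (hM : 1 < (r : ℝ≥0∞) * m.iter r (fun l => ind (H l))) :
    ∃ a b : ℕ → List X, Function.Injective (fun i => v (a i)) ∧
      Function.Injective (fun i => v (b i)) ∧
      (∀ i j, i ≤ j → H (a i ++ b j)) ∧ (∀ i j, j < i → H (b j ++ a i)) := by
  classical
  by_contra hcon
  have hΘ : ∀ p, 1 ≤ p → p < r →
      Theta m p (r - p) H (fun _ => True) (fun _ => True) = 0 := by
    intro p h1 h2
    by_contra h
    exact hcon (extract m p (r - p) H v (hv p h1) (hv (r - p) (by omega)) h)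
  -- it suffices to prove the inequality with every error
  have hbound : ∀ δ : ℝ≥0∞, δ ≠ 0 → δ ≠ ∞ →
      (r : ℝ≥0∞) * m.iter r (fun l => ind (H l)) ≤ 1 + (2 * r * r) * δ := by
    intro δ hδ0 hδ
    have hex : ∀ p, ∃ C : List X → List X → Prop, FinSec C ∧ (1 ≤ p → p < r →
        L1 m p (r - p) H C + L2 m p (r - p) H (fun a b => ¬ C a b) ≤ δ) := by
      intro p
      by_cases hp : 1 ≤ p ∧ p < r
      · have h0 := hΘ p hp.1 hp.2
        have hlt : Theta m p (r - p) H (fun _ => True) (fun _ => True) < δ := by
          rw [h0]; exact pos_iff_ne_zero.2 hδ0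
        obtain ⟨C, hC⟩ := iInf_lt_iff.1 hlt
        refine ⟨C.1, C.2, fun _ _ => ?_⟩
        refine le_trans (add_le_add ?_ ?_) hC.le
        · exact L1_mono m p _ H (by tauto)
        · exact L2_mono m p _ H (by tauto)
      · exact ⟨_, finSec_true, fun h1 h2 => absurd ⟨h1, h2⟩ hp⟩
    choose C hCfin hC using hex
    have hCn : ∀ p, FinSec (fun a b => ¬ C p a b) := by
      intro p
      refine ((hCfin p).image (fun s => fun b => ¬ s b)).subset ?_
      rintro _ ⟨a, rfl⟩
      exact ⟨C p a, ⟨a, rfl⟩, rfl⟩
    have hcyc := cyclic_bound m r hr (fun p a b => ¬ C p a b) hCn δ hδ0 hδ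
    have hsplit : m.iter r (fun l => ind (H l)) ≤
        m.iter r (fun l => ind (Good r (fun p a b => ¬ C p a b) l)) + r * δ := by
      have h1 : m.iter r (fun l => ind (H l)) ≤ m.iter r (fun l =>
          ind (Good r (fun p a b => ¬ C p a b) l) + ∑ p ∈ Finset.Ico 1 r,
            (ind (C p (l.take p) (l.drop p) ∧ H l) +
              ind ((¬ C p (l.drop (r - p)) (l.take (r - p))) ∧ H l))) := by
        refine m.iter_mono _ fun l _ => ?_
        by_cases hH : H l
        · by_cases hG : Good r (fun p a b => ¬ C p a b) l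
          · rw [ind_true hG]
            exact (ind_le_one _).trans le_self_add
          · have hG' : ∃ p, 1 ≤ p ∧ p < r ∧ (C p (l.take p) (l.drop p) ∨
                ¬ C p (l.drop (r - p)) (l.take (r - p))) := by
              by_contra hno
              apply hG
              intro p hp1 hp2
              constructor
              · intro h; exact hno ⟨p, hp1, hp2, Or.inl h⟩
              · intro h; exact hno ⟨p, hp1, hp2, Or.inr h⟩
            obtain ⟨p, hp1, hp2, hp⟩ := hG'
            refine le_trans ?_ le_add_self
            refine le_trans ?_ (Finset.single_le_sum (f := fun p =>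
              (ind (C p (l.take p) (l.drop p) ∧ H l) +
              ind ((¬ C p (l.drop (r - p)) (l.take (r - p))) ∧ H l))) (fun _ _ => by simp)
              (Finset.mem_Ico.2 ⟨hp1, hp2⟩))
            refine ind_le_add fun _ => ?_
            rcases hp with h | h
            · exact Or.inl ⟨h, hH⟩
            · exact Or.inr ⟨h, hH⟩
        · rw [ind_false hH]; simp
      refine h1.trans ?_
      rw [m.iter_add, m.iter_sum]
      refine add_le_add le_rfl ?_
      have h2 : ∀ p ∈ Finset.Ico 1 r, m.iter r (fun l => (ind (C p (l.take p) (l.drop p) ∧ H l) +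
              ind ((¬ C p (l.drop (r - p)) (l.take (r - p))) ∧ H l))) ≤ δ := by
        intro p hp
        rw [Finset.mem_Ico] at hp
        refine le_trans (le_of_eq ?_) (hC p hp.1 hp.2)
        rw [m.iter_add]
        congr 1
        · unfold L1
          conv_lhs => rw [show r = p + (r - p) by omega]
          rw [m.iter_append]
          refine m.iter_congr _ fun a ha => m.iter_congr _ fun b _ => ?_
          rw [List.take_append_of_le_length (by omega), List.take_of_length_le (by omega),
            List.drop_append_of_le_length (by omega), List.drop_of_length_le (by omega),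
            List.nil_append]
        · unfold L2
          have e : m.iter r (fun l => ind ((¬ C p (l.drop (r - p)) (l.take (r - p))) ∧ H l))
            = m.iter ((r - p) + p)
              (fun l => ind ((¬ C p (l.drop (r - p)) (l.take (r - p))) ∧ H l)) := by
            rw [show r - p + p = r by omega]
          rw [e, m.iter_append]
          refine m.iter_congr _ fun b hb => m.iter_congr _ fun a _ => ?_
          rw [List.take_append_of_le_length (by omega), List.take_of_length_le (by omega),
            List.drop_append_of_le_length (by omega), List.drop_of_length_le (by omega),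
            List.nil_append]
      refine (Finset.sum_le_sum h2).trans ?_
      rw [Finset.sum_const, Nat.card_Ico, nsmul_eq_mul]
      refine mul_le_mul_left ?_ _
      exact_mod_cast (by omega : r - 1 ≤ r)
    calc (r : ℝ≥0∞) * m.iter r (fun l => ind (H l)) ≤
        r * (m.iter r (fun l => ind (Good r (fun p a b => ¬ C p a b) l)) + r * δ) := by gcongr
      _ = r * m.iter r (fun l => ind (Good r (fun p a b => ¬ C p a b) l)) + r * (r * δ) := by
          rw [mul_add]
      _ ≤ 1 + r * (r * δ) + r * (r * δ) := by gcongr
      _ = _ := by ring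
  -- choose δ
  set M : ℝ≥0∞ := (r : ℝ≥0∞) * m.iter r (fun l => ind (H l)) with hMdef
  have hMt : M ≠ ∞ := by
    refine ENNReal.mul_ne_top (by simp) ?_
    exact ne_top_of_le_ne_top (by simp) (m.iter_le_const r 1 (by simp) fun l _ => ind_le_one _)
  have hR0 : (2 * (r : ℝ≥0∞) * r) ≠ 0 := by
    have : (r : ℝ≥0∞) ≠ 0 := by exact_mod_cast (by omega : r ≠ 0)
    simp [this]
  have hRt : (2 * (r : ℝ≥0∞) * r) ≠ ∞ := by
    refine ENNReal.mul_ne_top (ENNReal.mul_ne_top (by simp) (by simp)) (by simp)
  have hd : M - 1 ≠ 0 := by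
    rw [Ne, tsub_eq_zero_iff_le]
    exact not_le.2 hM
  have hdt : M - 1 ≠ ∞ := ne_top_of_le_ne_top hMt tsub_le_self
  have h2 := hbound ((M - 1) / 2 / (2 * r * r)) (by
    rw [Ne, ENNReal.div_eq_zero_iff, ENNReal.div_eq_zero_iff]
    push Not
    exact ⟨⟨hd, by simp⟩, hRt⟩) (by
    exact ENNReal.div_ne_top (ENNReal.div_ne_top hdt (by simp)) hR0)
  rw [ENNReal.mul_div_cancel hR0 hRt] at h2
  have h3 : 1 + (M - 1) / 2 < 1 + (M - 1) := by
    refine ENNReal.add_lt_add_left (by simp) ?_
    exact ENNReal.half_lt_self hd hdt
  have h4 : 1 + (M - 1) = M := add_tsub_cancel_of_le hM.le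
  rw [h4] at h3
  exact absurd h2 (not_le.2 h3)

end ProdSyn
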