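import Pool.Agent.ProdSyn.Mean

/-!
Extraction of infinite product sets from two non-singular bilinear functionals.
-/

open scoped ENNReal Topology
open Finset Filter

namespace ProdSyn

variable {X : Type*}

/-- finitely many left sections -/
def FinSec (C : List X → List X → Prop) : Prop := (Set.range C).Finite

/-- first functional: `a` is the outer variable, the word is `a ++ b` -/
noncomputable def L1 (m : Mean X) (p q : ℕ) (H : List X → Prop) (C : List X → List X → Prop) :
    ℝ≥0∞ := m.iter p (fun a => m.iter q (fun b => ind (C a b ∧ H (a ++ b))))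

/-- second functional: `b` is the outer variable, the word is `b ++ a` -/
noncomputable def L2 (m : Mean X) (p q : ℕ) (H : List X → Prop) (C : List X → List X → Prop) :
    ℝ≥0∞ := m.iter q (fun b => m.iter p (fun a => ind (C a b ∧ H (b ++ a))))

lemma L1_mono (m : Mean X) (p q : ℕ) (H : List X → Prop) {C D : List X → List X → Prop}
    (h : ∀ a b, C a b → D a b) : L1 m p q H C ≤ L1 m p q H D :=
  m.iter_mono _ fun a _ => m.iter_mono _ fun b _ => ind_mono fun hh => ⟨h a b hh.1, hh.2⟩

lemma L2_mono (m : Mean X) (p q : ℕ) (H : List X → Prop) {C D : List X → List X → Prop}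
    (h : ∀ a b, C a b → D a b) : L2 m p q H C ≤ L2 m p q H D :=
  m.iter_mono _ fun b _ => m.iter_mono _ fun a _ => ind_mono fun hh => ⟨h a b hh.1, hh.2⟩

lemma L1_sub (m : Mean X) (p q : ℕ) (H : List X → Prop) {C D E : List X → List X → Prop}
    (h : ∀ a b, C a b → D a b ∨ E a b) : L1 m p q H C ≤ L1 m p q H D + L1 m p q H E := by
  unfold L1
  rw [← m.iter_add]
  refine m.iter_mono _ fun a _ => ?_
  rw [← m.iter_add]
  refine m.iter_mono _ fun b _ => ind_le_add fun hh => ?_
  rcases h a b hh.1 with h1 | h1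
  · exact Or.inl ⟨h1, hh.2⟩
  · exact Or.inr ⟨h1, hh.2⟩

lemma L2_sub (m : Mean X) (p q : ℕ) (H : List X → Prop) {C D E : List X → List X → Prop}
    (h : ∀ a b, C a b → D a b ∨ E a b) : L2 m p q H C ≤ L2 m p q H D + L2 m p q H E := by
  unfold L2
  rw [← m.iter_add]
  refine m.iter_mono _ fun a _ => ?_
  rw [← m.iter_add]
  refine m.iter_mono _ fun b _ => ind_le_add fun hh => ?_
  rcases h b a hh.1 with h1 | h1
  · exact Or.inl ⟨h1, hh.2⟩
  · exact Or.inr ⟨h1, hh.2⟩

lemma L1_false (m : Mean X) (p q : ℕ) (H : List X → Prop) {C : List X → List X → Prop}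
    (h : ∀ a b, ¬ C a b) : L1 m p q H C = 0 := by
  refine le_antisymm ?_ (by simp)
  refine m.iter_le_const _ _ (by simp) fun a _ => m.iter_le_const _ _ (by simp) fun b _ => ?_
  rw [ind_false (fun hh => h a b hh.1)]

lemma L2_false (m : Mean X) (p q : ℕ) (H : List X → Prop) {C : List X → List X → Prop}
    (h : ∀ a b, ¬ C a b) : L2 m p q H C = 0 := by
  refine le_antisymm ?_ (by simp)
  refine m.iter_le_const _ _ (by simp) fun a _ => m.iter_le_const _ _ (by simp) fun b _ => ?_
  rw [ind_false (fun hh => h b a hh.1)]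

lemma L1_le_one (m : Mean X) (p q : ℕ) (H : List X → Prop) (C : List X → List X → Prop) :
    L1 m p q H C ≤ 1 :=
  m.iter_le_const _ _ (by simp) fun a _ => m.iter_le_const _ _ (by simp) fun b _ => ind_le_one _

/-- the infimum of the two functionals over sets with finitely many left sections -/
noncomputable def Theta (m : Mean X) (p q : ℕ) (H : List X → Prop) (P Q : List X → Prop) :
    ℝ≥0∞ := ⨅ C : {C : List X → List X → Prop // FinSec C},
      (L1 m p q H (fun a b => P a ∧ Q b ∧ C.1 a b) + L2 m p q H (fun a b => P a ∧ Q b ∧ ¬ C.1 a b))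

lemma finSec_true : FinSec (fun _ _ : List X => True) := by
  refine (Set.finite_singleton (fun _ : List X => True)).subset ?_
  rintro _ ⟨a, rfl⟩; rfl

lemma finSec_false : FinSec (fun _ _ : List X => False) := by
  refine (Set.finite_singleton (fun _ : List X => False)).subset ?_
  rintro _ ⟨a, rfl⟩; rfl

lemma finSec_right {C D : List X → List X → Prop} (hC : FinSec C) (hD : FinSec D)
    (R : List X → Prop) : FinSec (fun a b => (R b ∧ C a b) ∨ (¬ R b ∧ D a b)) := by
  refine (Set.Finite.image2 (fun (s t : List X → Prop) => fun b => (R b ∧ s b) ∨ (¬ R b ∧ t b))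
    hC hD).subset ?_
  rintro _ ⟨a, rfl⟩
  exact ⟨C a, ⟨a, rfl⟩, D a, ⟨a, rfl⟩, rfl⟩

lemma finSec_left {C D : List X → List X → Prop} (hC : FinSec C) (hD : FinSec D)
    (R : List X → Prop) : FinSec (fun a b => (R a ∧ C a b) ∨ (¬ R a ∧ D a b)) := by
  refine (hC.union hD).subset ?_
  rintro _ ⟨a, rfl⟩
  by_cases h : R a
  · left; refine ⟨a, ?_⟩; funext b; simp [h]
  · right; refine ⟨a, ?_⟩; funext b; simp [h]

section
variable (m : Mean X) (p q : ℕ) (H : List X → Prop)

lemma Theta_le_L1 (P Q : List X → Prop) :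
    Theta m p q H P Q ≤ L1 m p q H (fun a b => P a ∧ Q b) := by
  refine (iInf_le _ ⟨_, finSec_true⟩).trans ?_
  rw [L2_false m p q H (by tauto), add_zero]
  exact L1_mono m p q H (by tauto)

lemma Theta_le_L2 (P Q : List X → Prop) :
    Theta m p q H P Q ≤ L2 m p q H (fun a b => P a ∧ Q b) := by
  refine (iInf_le _ ⟨_, finSec_false⟩).trans ?_
  rw [L1_false m p q H (by tauto), zero_add]
  exact L2_mono m p q H (by tauto)

lemma Theta_mono {P Q P' Q' : List X → Prop} (hP : ∀ a, P a → P' a) (hQ : ∀ b, Q b → Q' b) :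
    Theta m p q H P Q ≤ Theta m p q H P' Q' := by
  refine le_iInf fun C => (iInf_le _ C).trans ?_
  exact add_le_add (L1_mono m p q H fun a b h => ⟨hP a h.1, hQ b h.2.1, h.2.2⟩)
    (L2_mono m p q H fun a b h => ⟨hP a h.1, hQ b h.2.1, h.2.2⟩)

lemma Theta_right (P Q R : List X → Prop) :
    Theta m p q H P Q ≤ Theta m p q H P (fun b => Q b ∧ R b)
      + Theta m p q H P (fun b => Q b ∧ ¬ R b) := by
  conv_rhs => unfold Theta
  rw [ENNReal.iInf_add]
  refine le_iInf fun C => ?_
  rw [ENNReal.add_iInf]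
  refine le_iInf fun D => ?_
  refine (iInf_le _ ⟨_, finSec_right C.2 D.2 R⟩).trans ?_
  refine (add_le_add
    (L1_sub m p q H (D := fun a b => P a ∧ (Q b ∧ R b) ∧ C.1 a b)
      (E := fun a b => P a ∧ (Q b ∧ ¬ R b) ∧ D.1 a b) ?_)
    (L2_sub m p q H (D := fun a b => P a ∧ (Q b ∧ R b) ∧ ¬ C.1 a b)
      (E := fun a b => P a ∧ (Q b ∧ ¬ R b) ∧ ¬ D.1 a b) ?_)).trans ?_
  · rintro a b ⟨h1, h2, h3⟩; tauto
  · rintro a b ⟨h1, h2, h3⟩; tauto
  · rw [add_add_add_comm]

lemma Theta_left (P Q R : List X → Prop) :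
    Theta m p q H P Q ≤ Theta m p q H (fun b => P b ∧ R b) Q
      + Theta m p q H (fun b => P b ∧ ¬ R b) Q := by
  conv_rhs => unfold Theta
  rw [ENNReal.iInf_add]
  refine le_iInf fun C => ?_
  rw [ENNReal.add_iInf]
  refine le_iInf fun D => ?_
  refine (iInf_le _ ⟨_, finSec_left C.2 D.2 R⟩).trans ?_
  refine (add_le_add
    (L1_sub m p q H (D := fun a b => (P a ∧ R a) ∧ Q b ∧ C.1 a b)
      (E := fun a b => (P a ∧ ¬ R a) ∧ Q b ∧ D.1 a b) ?_)
    (L2_sub m p q H (D := fun a b => (P a ∧ R a) ∧ Q b ∧ ¬ C.1 a b)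
      (E := fun a b => (P a ∧ ¬ R a) ∧ Q b ∧ ¬ D.1 a b) ?_)).trans ?_
  · rintro a b ⟨h1, h2, h3⟩; tauto
  · rintro a b ⟨h1, h2, h3⟩; tauto
  · rw [add_add_add_comm]

end

/-- the greedy step -/
lemma greedy (m : Mean X) (p q : ℕ) (P Q Z : List X → Prop) (K : List X → List X → Prop)
    (T : (List X → Prop) → ℝ≥0∞)
    (T_mono : ∀ {R R' : List X → Prop}, (∀ b, R b → R' b) → T R ≤ T R')
    (T_sub : ∀ R R' : List X → Prop, T R ≤ T (fun b => R b ∧ R' b) + T (fun b => R b ∧ ¬ R' b))
    (hT : ∀ R : List X → Prop,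
      T R ≤ m.iter p (fun a => m.iter q (fun b => ind (P a ∧ Q b ∧ R b ∧ K a b))))
    (hZ : m.iter p (fun a => ind (Z a)) = 0) (h0 : T (fun _ => True) ≠ 0) :
    ∃ a, a.length = p ∧ P a ∧ ¬ Z a ∧ T (K a) ≠ 0 := by
  by_contra hcon
  push Not at hcon
  have htop : T (fun _ => True) ≠ ∞ := by
    refine ne_top_of_le_ne_top (b := 1) (by simp) ((hT _).trans ?_)
    exact m.iter_le_const _ _ (by simp) fun a _ => m.iter_le_const _ _ (by simp)
      fun b _ => ind_le_one _
  set δ : ℝ≥0∞ := T (fun _ => True) / 2 with hδ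
  have hδ0 : δ ≠ 0 := by
    rw [hδ]; simp [h0]
  have hδlt : δ < T (fun _ => True) := ENNReal.half_lt_self h0 htop
  have key : ∀ n : ℕ, ∃ R : List X → Prop, T R = 0 ∧
      (n : ℝ≥0∞) * δ ≤ m.iter q (fun b => ind (Q b ∧ R b)) := by
    intro n
    induction n with
    | zero =>
      refine ⟨fun _ => False, ?_, by simp⟩
      refine le_antisymm ((hT _).trans ?_) (by simp)
      refine m.iter_le_const _ _ (by simp) fun a _ => m.iter_le_const _ _ (by simp) fun b _ => ?_
      rw [ind_false (by tauto)]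
    | succ n ih =>
      obtain ⟨R, hR0, hR⟩ := ih
      have h1 : δ < m.iter p (fun a => m.iter q (fun b => ind (P a ∧ Q b ∧ (¬ R b) ∧ K a b))) := by
        refine lt_of_lt_of_le hδlt ?_
        refine (T_sub (fun _ => True) R).trans ?_
        have h2 : T (fun b => True ∧ R b) = 0 :=
          le_antisymm ((T_mono (by tauto)).trans hR0.le) (by simp)
        rw [h2, zero_add]
        refine (T_mono (R' := fun b => ¬ R b) (by tauto)).trans (hT _)
      have h2 : m.iter p (fun a => m.iter q (fun b => ind (P a ∧ Q b ∧ (¬ R b) ∧ K a b)))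
          ≤ m.iter p (fun a => m.iter q (fun b =>
            ind ((P a ∧ ¬ Z a) ∧ Q b ∧ (¬ R b) ∧ K a b))) := by
        have h3 : m.iter p (fun a => m.iter q (fun b => ind (P a ∧ Q b ∧ (¬ R b) ∧ K a b)))
          ≤ m.iter p (fun a => ind (Z a) + m.iter q (fun b =>
            ind ((P a ∧ ¬ Z a) ∧ Q b ∧ (¬ R b) ∧ K a b))) := by
          refine m.iter_mono _ fun a _ => ?_
          by_cases hZa : Z a
          · rw [ind_true hZa]
            refine le_trans ?_ le_self_add
            exact m.iter_le_const _ _ (by simp) fun b _ => ind_le_one _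
          · refine le_trans ?_ le_add_self
            exact m.iter_mono _ fun b _ => ind_mono (by tauto)
        refine h3.trans ?_
        rw [m.iter_add, hZ, zero_add]
      obtain ⟨a, hap, ha⟩ := m.exists_of_lt_iter p (h1.trans_le h2)
      have hPa : P a ∧ ¬ Z a := by
        by_contra hn
        have : m.iter q (fun b => ind ((P a ∧ ¬ Z a) ∧ Q b ∧ (¬ R b) ∧ K a b)) = 0 := by
          refine le_antisymm (m.iter_le_const _ _ (by simp) fun b _ => ?_) (by simp)
          rw [ind_false (by tauto)]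
        rw [this] at ha
        simp at ha
      have hKa : T (K a) = 0 := hcon a hap hPa.1 hPa.2
      refine ⟨fun b => R b ∨ K a b, ?_, ?_⟩
      · refine le_antisymm ((T_sub _ R).trans ?_) (by simp)
        have e1 : T (fun b => (R b ∨ K a b) ∧ R b) = 0 :=
          le_antisymm ((T_mono (R' := R) (by tauto)).trans hR0.le) (by simp)
        have e2 : T (fun b => (R b ∨ K a b) ∧ ¬ R b) = 0 :=
          le_antisymm ((T_mono (R' := K a) (by tauto)).trans hKa.le) (by simp)
        rw [e1, e2, add_zero]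
      · calc ((n + 1 : ℕ) : ℝ≥0∞) * δ = n * δ + δ := by push_cast; ring
          _ ≤ m.iter q (fun b => ind (Q b ∧ R b)) + m.iter q (fun b =>
              ind ((P a ∧ ¬ Z a) ∧ Q b ∧ (¬ R b) ∧ K a b)) := add_le_add hR ha.le
          _ ≤ m.iter q (fun b => ind (Q b ∧ (R b ∨ K a b))) := by
              rw [← m.iter_add]
              refine m.iter_mono _ fun b _ => ?_
              rw [ind_split (Q b ∧ (R b ∨ K a b)) (R b)]
              exact add_le_add (ind_mono (by tauto)) (ind_mono (by tauto))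
  obtain ⟨n, hn⟩ := ENNReal.exists_nat_mul_gt (b := 1) hδ0 (by simp)
  obtain ⟨R, -, hR⟩ := key n
  have : m.iter q (fun b => ind (Q b ∧ R b)) ≤ 1 :=
    m.iter_le_const _ _ (by simp) fun b _ => ind_le_one _
  exact absurd (hR.trans this) (not_le.mpr hn)

section extraction

variable (m : Mean X) (p q : ℕ) (H : List X → Prop) (v : List X → ℕ)

/-- state of the recursive construction -/
structure St where
  P : List X → Prop
  Q : List X → Prop
  s : Finset ℕ
  t : Finset ℕ
  a : List X
  b : List X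
  pos : Theta m p q H P Q ≠ 0

lemma null_finset (n : ℕ) (hnull : ∀ k, m.iter n (fun a => ind (v a = k)) = 0) (s : Finset ℕ) :
    m.iter n (fun a => ind (v a ∈ s)) = 0 := by
  refine le_antisymm ?_ (by simp)
  calc m.iter n (fun a => ind (v a ∈ s)) ≤ m.iter n (fun a => ∑ k ∈ s, ind (v a = k)) := by
        refine m.iter_mono _ fun a _ => ?_
        by_cases h : v a ∈ s
        · rw [ind_true h]
          refine le_trans ?_ (Finset.single_le_sum (fun _ _ => by simp) h)
          rw [ind_true rfl]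
        · rw [ind_false h]; simp
    _ = 0 := by
        rw [m.iter_sum]
        exact Finset.sum_eq_zero fun k _ => hnull k

lemma step_exists (hp : ∀ k, m.iter p (fun a => ind (v a = k)) = 0)
    (hq : ∀ k, m.iter q (fun a => ind (v a = k)) = 0) (σ : St m p q H) :
    ∃ τ : St m p q H, (∀ l, τ.P l → σ.P l) ∧ (∀ l, τ.Q l → σ.Q l) ∧
      σ.P τ.a ∧ v τ.a ∉ σ.s ∧ τ.s = insert (v τ.a) σ.s ∧
      τ.Q τ.b ∧ v τ.b ∉ σ.t ∧ τ.t = insert (v τ.b) σ.t ∧
      (∀ l, τ.Q l → H (τ.a ++ l)) ∧ (∀ l, τ.P l → H (τ.b ++ l)) := by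
  obtain ⟨a, hap, haP, haZ, haT⟩ := greedy m p q σ.P σ.Q (fun a => v a ∈ σ.s)
    (fun a b => H (a ++ b)) (fun R => Theta m p q H σ.P (fun b => σ.Q b ∧ R b))
    (fun h => Theta_mono m p q H (fun _ h => h) (fun b hb => ⟨hb.1, h b hb.2⟩))
    (fun R R' => by
      refine (Theta_right m p q H _ _ R').trans (add_le_add ?_ ?_)
      · exact Theta_mono m p q H (fun _ h => h) (fun b hb => ⟨hb.1.1, hb.1.2, hb.2⟩)
      · exact Theta_mono m p q H (fun _ h => h) (fun b hb => ⟨hb.1.1, hb.1.2, hb.2⟩))
    (fun R => by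
      refine (Theta_le_L1 m p q H _ _).trans ?_
      refine m.iter_mono _ fun a _ => m.iter_mono _ fun b _ => ind_mono ?_
      rintro ⟨⟨h1, h2, h3⟩, h4⟩
      exact ⟨h1, h2, h3, h4⟩)
    (null_finset m v p hp σ.s)
    (by
      intro h
      apply σ.pos
      refine le_antisymm ?_ (by simp)
      refine le_trans (Theta_mono m p q H (fun _ h => h) (fun b hb => ?_)) h.le
      exact ⟨hb, trivial⟩)
  obtain ⟨b, hbq, hbP, hbZ, hbT⟩ := greedy m q p (fun b => σ.Q b ∧ H (a ++ b)) σ.P
    (fun b => v b ∈ σ.t)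
    (fun b a => H (b ++ a)) (fun R => Theta m p q H (fun a => σ.P a ∧ R a)
      (fun b => σ.Q b ∧ H (a ++ b)))
    (fun h => Theta_mono m p q H (fun b hb => ⟨hb.1, h b hb.2⟩) (fun _ h => h))
    (fun R R' => by
      refine (Theta_left m p q H _ _ R').trans (add_le_add ?_ ?_)
      · exact Theta_mono m p q H (fun b hb => ⟨hb.1.1, hb.1.2, hb.2⟩) (fun _ h => h)
      · exact Theta_mono m p q H (fun b hb => ⟨hb.1.1, hb.1.2, hb.2⟩) (fun _ h => h))
    (fun R => by
      refine (Theta_le_L2 m p q H _ _).trans ?_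
      refine m.iter_mono _ fun a _ => m.iter_mono _ fun b _ => ind_mono ?_
      rintro ⟨⟨⟨h1, h2⟩, h3⟩, h4⟩
      exact ⟨h3, h1, h2, h4⟩)
    (null_finset m v q hq σ.t)
    (by
      intro h
      apply haT
      refine le_antisymm ?_ (by simp)
      refine le_trans (Theta_mono m p q H (fun a ha => ?_) (fun _ h => h)) h.le
      exact ⟨ha, trivial⟩)
  refine ⟨⟨fun l => σ.P l ∧ H (b ++ l), fun l => σ.Q l ∧ H (a ++ l), insert (v a) σ.s,
    insert (v b) σ.t, a, b, hbT⟩, fun l h => h.1, fun l h => h.1, haP, haZ, rfl, hbP, hbZ, rfl,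
    fun l h => h.2, fun l h => h.2⟩

theorem extract (hp : ∀ k, m.iter p (fun a => ind (v a = k)) = 0)
    (hq : ∀ k, m.iter q (fun a => ind (v a = k)) = 0)
    (hΘ : Theta m p q H (fun _ => True) (fun _ => True) ≠ 0) :
    ∃ a b : ℕ → List X, Function.Injective (fun i => v (a i)) ∧
      Function.Injective (fun i => v (b i)) ∧
      (∀ i j, i ≤ j → H (a i ++ b j)) ∧ (∀ i j, j < i → H (b j ++ a i)) := by
  classical
  choose nxt h1 h2 h3 h4 h5 h6 h7 h8 h9 h10 using step_exists m p q H v hp hq
  let S : ℕ → St m p q H := fun n => Nat.rec ⟨fun _ => True, fun _ => True, ∅, ∅, [], [], hΘ⟩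
    (fun _ σ => nxt σ) n
  have hS : ∀ n, S (n + 1) = nxt (S n) := fun n => rfl
  have hPmono : ∀ i j, i ≤ j → ∀ l, (S j).P l → (S i).P l := by
    intro i j hij
    induction j, hij using Nat.le_induction with
    | base => intro l h; exact h
    | succ j hij ih =>
      intro l h
      rw [hS] at h
      exact ih l (h1 _ l h)
  have hQmono : ∀ i j, i ≤ j → ∀ l, (S j).Q l → (S i).Q l := by
    intro i j hij
    induction j, hij using Nat.le_induction with
    | base => intro l h; exact h
    | succ j hij ih =>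
      intro l h
      rw [hS] at h
      exact ih l (h2 _ l h)
  have hsmem : ∀ i j, i < j → v (S (i + 1)).a ∈ (S j).s := by
    intro i j hij
    induction j, hij using Nat.le_induction with
    | base =>
      rw [hS, h5]
      exact Finset.mem_insert_self _ _
    | succ j hij ih =>
      rw [hS j, h5]
      exact Finset.mem_insert_of_mem ih
  have htmem : ∀ i j, i < j → v (S (i + 1)).b ∈ (S j).t := by
    intro i j hij
    induction j, hij using Nat.le_induction with
    | base =>
      rw [hS, h8]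
      exact Finset.mem_insert_self _ _
    | succ j hij ih =>
      rw [hS j, h8]
      exact Finset.mem_insert_of_mem ih
  have haneq : ∀ i j, i < j → v (S (i + 1)).a ≠ v (S (j + 1)).a := by
    intro i j hij h
    have := hsmem i j hij
    rw [h, hS j] at this
    exact h4 _ this
  have hbneq : ∀ i j, i < j → v (S (i + 1)).b ≠ v (S (j + 1)).b := by
    intro i j hij h
    have := htmem i j hij
    rw [h, hS j] at this
    exact h7 _ this
  refine ⟨fun i => (S (i + 1)).a, fun i => (S (i + 1)).b, ?_, ?_, ?_, ?_⟩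
  · intro i j h
    rcases lt_trichotomy i j with hh | hh | hh
    · exact absurd h (haneq i j hh)
    · exact hh
    · exact absurd h.symm (haneq j i hh)
  · intro i j h
    rcases lt_trichotomy i j with hh | hh | hh
    · exact absurd h (hbneq i j hh)
    · exact hh
    · exact absurd h.symm (hbneq j i hh)
  · intro i j hij
    have hb : (S (j + 1)).Q (S (j + 1)).b := by
      rw [hS j]; exact h6 _
    have hb' := hQmono (i + 1) (j + 1) (by omega) _ hb
    show H ((S (i + 1)).a ++ (S (j + 1)).b)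
    have := h9 (S i) (S (j + 1)).b
    rw [← hS i] at this
    exact this hb'
  · intro i j hij
    have ha : (S i).P (S (i + 1)).a := by
      rw [hS i]; exact h3 _
    have ha' := hPmono (j + 1) i (by omega) _ ha
    have := h10 (S j) (S (i + 1)).a
    rw [← hS j] at this
    exact this ha'

end extraction

end ProdSyn
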