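import Pool.Agent.ProdSyn.Mean

/-!
A finitely additive mean on `ℕ` which is invariant under multiplication by every positive
integer and gives measure zero to points.
-/

open scoped ENNReal Topology
open Finset Filter

namespace ProdSyn

/-- limit along a fixed nonprincipal ultrafilter -/
noncomputable def ulim (u : ℕ → ℝ≥0∞) : ℝ≥0∞ := ((hyperfilter ℕ).map u).lim

lemma tendsto_ulim (u : ℕ → ℝ≥0∞) : Tendsto u (hyperfilter ℕ : Filter ℕ) (𝓝 (ulim u)) := by
  have h := Ultrafilter.le_nhds_lim ((hyperfilter ℕ).map u)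
  exact h

lemma ulim_eq {u : ℕ → ℝ≥0∞} {a : ℝ≥0∞} (h : Tendsto u (hyperfilter ℕ : Filter ℕ) (𝓝 a)) :
    ulim u = a := tendsto_nhds_unique (tendsto_ulim u) h

lemma ulim_mono_ev {u v : ℕ → ℝ≥0∞} (h : ∀ᶠ n in (hyperfilter ℕ : Filter ℕ), u n ≤ v n) :
    ulim u ≤ ulim v := le_of_tendsto_of_tendsto (tendsto_ulim u) (tendsto_ulim v) h

lemma ulim_mono {u v : ℕ → ℝ≥0∞} (h : ∀ n, u n ≤ v n) : ulim u ≤ ulim v :=
  ulim_mono_ev (Eventually.of_forall h)

lemma ulim_add (u v : ℕ → ℝ≥0∞) : ulim (fun n => u n + v n) = ulim u + ulim v :=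
  ulim_eq ((tendsto_ulim u).add (tendsto_ulim v))

lemma ulim_smul (c : ℝ≥0∞) (hc : c ≠ ∞) (u : ℕ → ℝ≥0∞) :
    ulim (fun n => c * u n) = c * ulim u :=
  ulim_eq (ENNReal.Tendsto.const_mul (tendsto_ulim u) (Or.inr hc))

lemma ulim_const (c : ℝ≥0∞) : ulim (fun _ => c) = c := ulim_eq tendsto_const_nhds

lemma ulim_of_tendsto {u : ℕ → ℝ≥0∞} {a : ℝ≥0∞} (h : Tendsto u atTop (𝓝 a)) : ulim u = a := by
  refine ulim_eq (h.mono_left ?_)
  rw [← Nat.cofinite_eq_atTop]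
  exact hyperfilter_le_cofinite

lemma eventually_ge_hyper (k : ℕ) : ∀ᶠ n in (hyperfilter ℕ : Filter ℕ), k ≤ n := by
  have h : (hyperfilter ℕ : Filter ℕ) ≤ atTop := by
    rw [← Nat.cofinite_eq_atTop]
    exact hyperfilter_le_cofinite
  exact h (eventually_ge_atTop k)

/-- Cesàro-type average along powers of `k` -/
noncomputable def A (k : ℕ) (φ : ℕ → ℝ≥0∞) (n : ℕ) : ℝ≥0∞ :=
  ulim (fun N => ((N : ℝ≥0∞) + 1)⁻¹ * ∑ e ∈ range (N + 1), φ (k ^ e * n))

lemma inv_succ_ne_top (N : ℕ) : ((N : ℝ≥0∞) + 1)⁻¹ ≠ ∞ := by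
  simp

lemma inv_succ_mul (N : ℕ) : ((N : ℝ≥0∞) + 1)⁻¹ * ((N : ℝ≥0∞) + 1) = 1 := by
  refine ENNReal.inv_mul_cancel (by simp) (by simp)

lemma A_mono (k : ℕ) {φ ψ : ℕ → ℝ≥0∞} (h : ∀ x, φ x ≤ ψ x) (n : ℕ) : A k φ n ≤ A k ψ n := by
  refine ulim_mono fun N => ?_
  gcongr
  exact h _

lemma A_add (k : ℕ) (φ ψ : ℕ → ℝ≥0∞) (n : ℕ) :
    A k (fun x => φ x + ψ x) n = A k φ n + A k ψ n := by
  unfold A
  rw [← ulim_add]
  congr 1
  funext N
  rw [Finset.sum_add_distrib, mul_add]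

lemma A_smul (k : ℕ) (c : ℝ≥0∞) (hc : c ≠ ∞) (φ : ℕ → ℝ≥0∞) (n : ℕ) :
    A k (fun x => c * φ x) n = c * A k φ n := by
  unfold A
  rw [← ulim_smul c hc]
  congr 1
  funext N
  rw [← Finset.mul_sum]
  ring

lemma A_const_one (k n : ℕ) : A k (fun _ => 1) n = 1 := by
  refine (congrArg ulim (funext fun N => ?_)).trans (ulim_const 1)
  simp [inv_succ_mul]

lemma A_le_one (k : ℕ) {φ : ℕ → ℝ≥0∞} (h : ∀ x, φ x ≤ 1) (n : ℕ) : A k φ n ≤ 1 :=
  (A_mono k h n).trans (A_const_one k n).le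

lemma A_comm (j k : ℕ) (φ : ℕ → ℝ≥0∞) (n : ℕ) :
    A j (fun x => φ (k * x)) n = A j φ (k * n) := by
  refine congrArg ulim (funext fun N => ?_)
  congr 1
  refine Finset.sum_congr rfl fun e _ => ?_
  show φ (k * (j ^ e * n)) = φ (j ^ e * (k * n))
  congr 1
  ring

lemma ulim_inv_succ : ulim (fun N => ((N : ℝ≥0∞) + 1)⁻¹) = 0 := by
  apply ulim_of_tendsto
  have h := (ENNReal.tendsto_inv_nat_nhds_zero).comp (tendsto_add_atTop_nat 1)
  refine h.congr fun N => ?_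
  simp

lemma A_inv (k : ℕ) {φ : ℕ → ℝ≥0∞} (h : ∀ x, φ x ≤ 1) (n : ℕ) :
    A k (fun x => φ (k * x)) n = A k φ n := by
  have key : ∀ (N : ℕ), ∑ e ∈ range (N + 1), φ (k * (k ^ e * n)) + φ n
      = ∑ e ∈ range (N + 1), φ (k ^ e * n) + φ (k ^ (N + 1) * n) := by
    intro N
    rw [← Finset.sum_range_succ (fun e => φ (k ^ e * n)) (N + 1),
      Finset.sum_range_succ' (fun e => φ (k ^ e * n)) (N + 1)]
    simp only [pow_zero, one_mul]
    congr 1
    refine Finset.sum_congr rfl fun e _ => ?_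
    congr 1
    ring
  apply le_antisymm
  · have : A k φ n = ulim (fun N => ((N : ℝ≥0∞) + 1)⁻¹ * ∑ e ∈ range (N + 1), φ (k ^ e * n)
        + ((N : ℝ≥0∞) + 1)⁻¹) := by
      rw [ulim_add, ulim_inv_succ, add_zero]; rfl
    rw [this]
    unfold A
    refine ulim_mono fun N => ?_
    calc ((N : ℝ≥0∞) + 1)⁻¹ * ∑ e ∈ range (N + 1), φ (k * (k ^ e * n))
        ≤ ((N : ℝ≥0∞) + 1)⁻¹ * (∑ e ∈ range (N + 1), φ (k * (k ^ e * n)) + φ n) := by
          gcongr; exact le_self_add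
      _ = ((N : ℝ≥0∞) + 1)⁻¹ * (∑ e ∈ range (N + 1), φ (k ^ e * n) + φ (k ^ (N + 1) * n)) := by
          rw [key]
      _ ≤ ((N : ℝ≥0∞) + 1)⁻¹ * (∑ e ∈ range (N + 1), φ (k ^ e * n) + 1) := by
          gcongr; exact h _
      _ = _ := by rw [mul_add, mul_one]
  · have : A k (fun x => φ (k * x)) n
        = ulim (fun N => ((N : ℝ≥0∞) + 1)⁻¹ * ∑ e ∈ range (N + 1), φ (k * (k ^ e * n))
        + ((N : ℝ≥0∞) + 1)⁻¹) := by
      rw [ulim_add, ulim_inv_succ, add_zero]; rfl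
    rw [this]
    unfold A
    refine ulim_mono fun N => ?_
    calc ((N : ℝ≥0∞) + 1)⁻¹ * ∑ e ∈ range (N + 1), φ (k ^ e * n)
        ≤ ((N : ℝ≥0∞) + 1)⁻¹ * (∑ e ∈ range (N + 1), φ (k ^ e * n) + φ (k ^ (N + 1) * n)) := by
          gcongr; exact le_self_add
      _ = ((N : ℝ≥0∞) + 1)⁻¹ * (∑ e ∈ range (N + 1), φ (k * (k ^ e * n)) + φ n) := by
          rw [key]
      _ ≤ ((N : ℝ≥0∞) + 1)⁻¹ * (∑ e ∈ range (N + 1), φ (k * (k ^ e * n)) + 1) := by
          gcongr; exact h _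
      _ = _ := by rw [mul_add, mul_one]

lemma A_zero_of_pos {k : ℕ} (hk : 0 < k) {φ : ℕ → ℝ≥0∞} (h : ∀ x, 0 < x → φ x = 0) {n : ℕ}
    (hn : 0 < n) : A k φ n = 0 := by
  refine (congrArg ulim (funext fun N => ?_)).trans (ulim_const 0)
  rw [Finset.sum_eq_zero, mul_zero]
  intro e _
  exact h _ (by positivity)

/-- composition of the averages `A 1, …, A K` -/
noncomputable def B : ℕ → (ℕ → ℝ≥0∞) → ℕ → ℝ≥0∞
  | 0, φ => φ
  | K + 1, φ => B K (A (K + 1) φ)

lemma B_mono (K : ℕ) : ∀ {φ ψ : ℕ → ℝ≥0∞}, (∀ x, φ x ≤ ψ x) → ∀ n, B K φ n ≤ B K ψ n := by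
  induction K with
  | zero => intro φ ψ h n; exact h n
  | succ K ih => intro φ ψ h n; exact ih (fun x => A_mono _ h x) n

lemma B_add (K : ℕ) : ∀ (φ ψ : ℕ → ℝ≥0∞) (n : ℕ),
    B K (fun x => φ x + ψ x) n = B K φ n + B K ψ n := by
  induction K with
  | zero => intro φ ψ n; rfl
  | succ K ih =>
    intro φ ψ n
    show B K (A (K+1) (fun x => φ x + ψ x)) n = _
    rw [show A (K+1) (fun x => φ x + ψ x) = fun x => A (K+1) φ x + A (K+1) ψ x from
      funext fun x => A_add _ _ _ _]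
    exact ih _ _ n

lemma B_smul (K : ℕ) (c : ℝ≥0∞) (hc : c ≠ ∞) : ∀ (φ : ℕ → ℝ≥0∞) (n : ℕ),
    B K (fun x => c * φ x) n = c * B K φ n := by
  induction K with
  | zero => intro φ n; rfl
  | succ K ih =>
    intro φ n
    show B K (A (K+1) (fun x => c * φ x)) n = _
    rw [show A (K+1) (fun x => c * φ x) = fun x => c * A (K+1) φ x from
      funext fun x => A_smul _ _ hc _ _]
    exact ih _ n

lemma B_one (K : ℕ) : ∀ (n : ℕ), B K (fun _ => 1) n = 1 := by
  induction K with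
  | zero => intro n; rfl
  | succ K ih =>
    intro n
    show B K (A (K+1) (fun _ => 1)) n = _
    rw [show A (K+1) (fun _ => 1) = fun _ => 1 from funext fun x => A_const_one _ _]
    exact ih n

lemma B_inv (k : ℕ) (hk : 0 < k) (K : ℕ) (hK : k ≤ K) : ∀ {φ : ℕ → ℝ≥0∞}, (∀ x, φ x ≤ 1) →
    ∀ n, B K (fun x => φ (k * x)) n = B K φ n := by
  induction K with
  | zero => omega
  | succ K ih =>
    intro φ h n
    show B K (A (K+1) (fun x => φ (k * x))) n = B K (A (K+1) φ) n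
    rcases Nat.lt_or_ge k (K + 1) with h1 | h1
    · rw [show A (K+1) (fun x => φ (k * x)) = fun x => A (K+1) φ (k * x) from
        funext fun x => A_comm _ _ _ _]
      exact ih (by omega) (fun x => A_le_one _ h x) n
    · have : k = K + 1 := by omega
      subst this
      rw [show A (K+1) (fun x => φ ((K+1) * x)) = A (K+1) φ from
        funext fun x => A_inv _ h _]

lemma B_zero_of_pos (K : ℕ) : ∀ {φ : ℕ → ℝ≥0∞}, (∀ x, 0 < x → φ x = 0) →
    ∀ {n : ℕ}, 0 < n → B K φ n = 0 := by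
  induction K with
  | zero => intro φ h n hn; exact h n hn
  | succ K ih =>
    intro φ h n hn
    exact ih (fun x hx => A_zero_of_pos (Nat.succ_pos K) h hx) hn

/-- a multiplicatively invariant mean on the positive integers -/
noncomputable def invMean : Mean ℕ where
  toFun φ := ulim (fun K => B K φ 1)
  mono := fun h => ulim_mono fun K => B_mono K h 1
  add := fun φ ψ => by
    rw [← ulim_add]; congr 1; funext K; exact B_add K φ ψ 1
  smul := fun c hc φ => by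
    rw [← ulim_smul c hc]; congr 1; funext K; exact B_smul K c hc φ 1
  one := by
    exact (congrArg ulim (funext fun K => B_one K 1)).trans (ulim_const 1)

lemma invMean_inv (k : ℕ) (hk : 0 < k) {φ : ℕ → ℝ≥0∞} (h : ∀ x, φ x ≤ 1) :
    invMean.toFun (fun x => φ (k * x)) = invMean.toFun φ := by
  show ulim _ = ulim _
  apply le_antisymm
  · apply ulim_mono_ev
    filter_upwards [eventually_ge_hyper k] with K hK
    exact (B_inv k hk K hK h 1).le
  · apply ulim_mono_ev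
    filter_upwards [eventually_ge_hyper k] with K hK
    exact (B_inv k hk K hK h 1).ge

lemma invMean_zero_of_pos {φ : ℕ → ℝ≥0∞} (h : ∀ x, 0 < x → φ x = 0) :
    invMean.toFun φ = 0 := by
  exact (congrArg ulim (funext fun K => B_zero_of_pos K h one_pos)).trans (ulim_const 0)

lemma invMean_point (n : ℕ) : invMean.toFun (fun x => ind (x = n)) = 0 := by
  rcases Nat.eq_zero_or_pos n with rfl | hn
  · exact invMean_zero_of_pos fun x hx => ind_false (by omega)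
  · rw [← invMean_inv (n + 1) (Nat.succ_pos n) (fun x => ind_le_one _)]
    refine invMean_zero_of_pos fun x hx => ind_false ?_
    intro h
    nlinarith

end ProdSyn
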