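import Pool.Agent.ProdSyn.Invariant
import Pool.Agent.ProdSyn.Cyclic

/-!
Every syndetic set of positive integers contains a product `A * B` of two infinite sets.
-/

open scoped ENNReal Topology
open Finset Filter

namespace ProdSyn

/-- value of a word -/
def val (l : List ℕ) : ℕ := (l.map (· + 1)).prod

lemma val_nil : val [] = 1 := rfl
lemma val_cons (x : ℕ) (l : List ℕ) : val (x :: l) = (x + 1) * val l := by simp [val]
lemma val_append (l l' : List ℕ) : val (l ++ l') = val l * val l' := by simp [val]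
lemma val_pos (l : List ℕ) : 0 < val l := by
  induction l with
  | nil => simp [val]
  | cons x l ih => rw [val_cons]; positivity

lemma null_val (n : ℕ) (hn : 1 ≤ n) (k : ℕ) :
    invMean.iter n (fun a => ind (val a = k)) = 0 := by
  obtain ⟨n, rfl⟩ : ∃ n', n = n' + 1 := ⟨n - 1, by omega⟩
  rw [Mean.iter_snoc]
  refine le_antisymm (invMean.iter_le_const _ _ (by simp) fun a _ => ?_) (by simp)
  have ha := val_pos a
  rw [← invMean_point (k / val a - 1)]
  refine invMean.mono fun x => ind_mono fun h => ?_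
  rw [val_append, val_cons, val_nil, mul_one] at h
  rw [← h, Nat.mul_div_cancel_left _ ha]
  simp

/-- mass of the words whose value times `n` lies in `S` -/
noncomputable def hmass (S : Set ℕ) (r n : ℕ) : ℝ≥0∞ :=
  invMean.iter r (fun l => ind (n * val l ∈ S))

lemma hmass_le_one (S : Set ℕ) (r n : ℕ) : hmass S r n ≤ 1 :=
  invMean.iter_le_const _ _ (by simp) fun _ _ => ind_le_one _

lemma hmass_succ (S : Set ℕ) (r n : ℕ) (hn : 0 < n) :
    hmass S (r + 1) n = invMean.toFun (fun E => hmass S r (E + n)) := by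
  have h1 : hmass S (r + 1) n = invMean.toFun (fun E => hmass S r (n * E + n)) := by
    unfold hmass
    rw [Mean.iter_succ]
    refine invMean.congr fun E => invMean.iter_congr _ fun l _ => ?_
    rw [val_cons]
    congr 2
    ring
  rw [h1]
  exact invMean_inv n hn (φ := fun x => hmass S r (x + n)) (fun x => hmass_le_one _ _ _)

lemma window (S : Set ℕ) (L : ℕ) (hS : ∀ n, 0 < n → ∃ s ∈ S, n ≤ s ∧ s ≤ n + L) (r : ℕ) :
    ∀ t, 1 ≤ ∑ w ∈ Finset.range (L + 1), hmass S r (t + (w + 1)) := by
  induction r with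
  | zero =>
    intro t
    obtain ⟨s, hs, h1, h2⟩ := hS (t + 1) (Nat.succ_pos t)
    refine le_trans ?_ (Finset.single_le_sum (f := fun w => hmass S 0 (t + (w + 1)))
      (fun _ _ => by simp) (Finset.mem_range.2 (show s - t - 1 < L + 1 by omega)))
    show 1 ≤ ind _
    rw [ind_true]
    rw [val_nil, mul_one, show t + (s - t - 1 + 1) = s by omega]
    exact hs
  | succ r ih =>
    intro t
    have h1 : ∑ w ∈ Finset.range (L + 1), hmass S (r + 1) (t + (w + 1)) =
        invMean.toFun (fun E => ∑ w ∈ Finset.range (L + 1), hmass S r ((E + t) + (w + 1))) := by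
      rw [invMean.sum]
      refine Finset.sum_congr rfl fun w _ => ?_
      rw [hmass_succ S r _ (by omega)]
      refine invMean.congr fun E => ?_
      rw [add_assoc]
    rw [h1, ← invMean.one]
    exact invMean.mono fun E => ih (E + t)

theorem product_in_syndetic (S : Set ℕ)
    (hS : ∃ L : ℕ, ∀ n : ℕ, 0 < n → ∃ s ∈ S, n ≤ s ∧ s ≤ n + L) :
    ∃ A B : Set ℕ, A.Infinite ∧ B.Infinite ∧ (∀ a ∈ A, 0 < a) ∧ (∀ b ∈ B, 0 < b) ∧
      ∀ a ∈ A, ∀ b ∈ B, a * b ∈ S := by
  obtain ⟨L, hS⟩ := hS
  have hw := window S L hS (L + 2) 0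
  have hex : ∃ w ∈ Finset.range (L + 1),
      1 < ((L + 2 : ℕ) : ℝ≥0∞) * hmass S (L + 2) (0 + (w + 1)) := by
    by_contra hcon
    push Not at hcon
    have h1 : ((L + 2 : ℕ) : ℝ≥0∞) * 1 ≤ ((L + 1 : ℕ) : ℝ≥0∞) * 1 := by
      calc ((L + 2 : ℕ) : ℝ≥0∞) * 1
          ≤ ((L + 2 : ℕ) : ℝ≥0∞) * ∑ w ∈ Finset.range (L + 1), hmass S (L + 2) (0 + (w + 1)) := by
            gcongr
        _ = ∑ w ∈ Finset.range (L + 1),
            ((L + 2 : ℕ) : ℝ≥0∞) * hmass S (L + 2) (0 + (w + 1)) := by
            rw [Finset.mul_sum]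
        _ ≤ ∑ _w ∈ Finset.range (L + 1), 1 := Finset.sum_le_sum hcon
        _ = _ := by simp
    rw [mul_one, mul_one] at h1
    have h2 : L + 2 ≤ L + 1 := by exact_mod_cast h1
    omega
  obtain ⟨w, -, hw1⟩ := hex
  set n : ℕ := 0 + (w + 1) with hn
  have hnpos : 0 < n := by omega
  obtain ⟨a, b, ha, hb, hab, hba⟩ := words_theorem invMean (L + 2) (by omega)
    (fun l => n * val l ∈ S) val null_val hw1
  refine ⟨Set.range (fun i => n * val (a i)), Set.range (fun j => val (b j)),
    Set.infinite_range_of_injective ?_, Set.infinite_range_of_injective hb, ?_, ?_, ?_⟩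
  · intro i j hij
    exact ha (Nat.eq_of_mul_eq_mul_left hnpos hij)
  · rintro _ ⟨i, rfl⟩
    exact Nat.mul_pos hnpos (val_pos _)
  · rintro _ ⟨j, rfl⟩
    exact val_pos _
  · rintro _ ⟨i, rfl⟩ _ ⟨j, rfl⟩
    show n * val (a i) * val (b j) ∈ S
    rcases Nat.lt_or_ge j i with h | h
    · have := hba i j h
      rw [val_append] at this
      rwa [show n * val (a i) * val (b j) = n * (val (b j) * val (a i)) by ring]
    · have := hab i j h
      rw [val_append] at this
      rwa [show n * val (a i) * val (b j) = n * (val (a i) * val (b j)) by ring]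

end ProdSyn
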