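import Mathlib

/-!
Finitely additive means with values in `ℝ≥0∞` and their iterates on words.
-/

open scoped ENNReal Topology
open Finset Filter

namespace ProdSyn

/-- A finitely additive mean on `X`, as a functional on `[0,∞]`-valued functions. -/
structure Mean (X : Type*) where
  toFun : (X → ℝ≥0∞) → ℝ≥0∞
  mono : ∀ {φ ψ : X → ℝ≥0∞}, (∀ x, φ x ≤ ψ x) → toFun φ ≤ toFun ψ
  add : ∀ φ ψ : X → ℝ≥0∞, toFun (fun x => φ x + ψ x) = toFun φ + toFun ψ
  smul : ∀ c : ℝ≥0∞, c ≠ ∞ → ∀ φ : X → ℝ≥0∞, toFun (fun x => c * φ x) = c * toFun φ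
  one : toFun (fun _ => 1) = 1

/-- indicator of a proposition -/
noncomputable def ind (p : Prop) : ℝ≥0∞ := open Classical in if p then 1 else 0

lemma ind_true {p : Prop} (h : p) : ind p = 1 := by simp [ind, h]
lemma ind_false {p : Prop} (h : ¬ p) : ind p = 0 := by simp [ind, h]
lemma ind_le_one (p : Prop) : ind p ≤ 1 := by
  by_cases h : p <;> simp [ind, h]
lemma ind_mono {p q : Prop} (h : p → q) : ind p ≤ ind q := by
  by_cases hp : p
  · rw [ind_true hp, ind_true (h hp)]
  · rw [ind_false hp]; exact zero_le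
lemma ind_congr {p q : Prop} (h : p ↔ q) : ind p = ind q := by
  rw [propext h]
lemma ind_and (p q : Prop) : ind (p ∧ q) = ind p * ind q := by
  by_cases hp : p <;> by_cases hq : q <;> simp [ind, hp, hq]
lemma ind_split (p q : Prop) : ind p = ind (p ∧ q) + ind (p ∧ ¬ q) := by
  by_cases hp : p <;> by_cases hq : q <;> simp [ind, hp, hq]
lemma ind_le_add {p q r : Prop} (h : p → q ∨ r) : ind p ≤ ind q + ind r := by
  by_cases hp : p
  · rcases h hp with hq | hr
    · rw [ind_true hp, ind_true hq]; exact le_self_add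
    · rw [ind_true hp, ind_true hr]; exact le_add_self
  · rw [ind_false hp]; exact zero_le
lemma ind_ne_zero {p : Prop} (h : ind p ≠ 0) : p := by
  by_contra hp; exact h (ind_false hp)

variable {X : Type*}

namespace Mean

lemma congr (m : Mean X) {φ ψ : X → ℝ≥0∞} (h : ∀ x, φ x = ψ x) : m.toFun φ = m.toFun ψ := by
  rw [funext h]

lemma const (m : Mean X) (c : ℝ≥0∞) (hc : c ≠ ∞) : m.toFun (fun _ => c) = c := by
  have := m.smul c hc (fun _ => 1)
  simpa [m.one] using this

lemma zero (m : Mean X) : m.toFun (fun _ => 0) = 0 := m.const 0 (by simp)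

lemma sum (m : Mean X) {ι : Type*} (s : Finset ι) (F : ι → X → ℝ≥0∞) :
    m.toFun (fun x => ∑ i ∈ s, F i x) = ∑ i ∈ s, m.toFun (F i) := by
  classical
  induction s using Finset.induction_on with
  | empty => simpa using m.zero
  | insert a s ha ih =>
    simp only [Finset.sum_insert ha]
    rw [m.add, ih]

/-- iterated mean of a function on words, the first letter being the outermost variable -/
noncomputable def iter (m : Mean X) : ℕ → (List X → ℝ≥0∞) → ℝ≥0∞
  | 0, F => F []
  | n + 1, F => m.toFun (fun x => iter m n (fun l => F (x :: l)))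

lemma iter_zero (m : Mean X) (F : List X → ℝ≥0∞) : m.iter 0 F = F [] := rfl

lemma iter_succ (m : Mean X) (n : ℕ) (F : List X → ℝ≥0∞) :
    m.iter (n + 1) F = m.toFun (fun x => m.iter n (fun l => F (x :: l))) := rfl

lemma iter_mono (m : Mean X) (n : ℕ) : ∀ {F G : List X → ℝ≥0∞},
    (∀ l, l.length = n → F l ≤ G l) → m.iter n F ≤ m.iter n G := by
  induction n with
  | zero => intro F G h; exact h [] rfl
  | succ n ih =>
    intro F G h
    rw [iter_succ, iter_succ]
    refine m.mono fun x => ih fun l hl => h (x :: l) (by simp [hl])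

lemma iter_congr (m : Mean X) (n : ℕ) {F G : List X → ℝ≥0∞}
    (h : ∀ l, l.length = n → F l = G l) : m.iter n F = m.iter n G :=
  le_antisymm (m.iter_mono n fun l hl => (h l hl).le) (m.iter_mono n fun l hl => (h l hl).ge)

lemma iter_add (m : Mean X) (n : ℕ) : ∀ F G : List X → ℝ≥0∞,
    m.iter n (fun l => F l + G l) = m.iter n F + m.iter n G := by
  induction n with
  | zero => intro F G; rfl
  | succ n ih =>
    intro F G
    simp only [iter_succ, ih, m.add]

lemma iter_smul (m : Mean X) (n : ℕ) (c : ℝ≥0∞) (hc : c ≠ ∞) : ∀ F : List X → ℝ≥0∞,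
    m.iter n (fun l => c * F l) = c * m.iter n F := by
  induction n with
  | zero => intro F; rfl
  | succ n ih =>
    intro F
    simp only [iter_succ, ih, m.smul c hc]

lemma iter_const (m : Mean X) (n : ℕ) (c : ℝ≥0∞) (hc : c ≠ ∞) :
    m.iter n (fun _ => c) = c := by
  induction n with
  | zero => rfl
  | succ n ih => simp only [iter_succ, ih, m.const c hc]

lemma iter_le_const (m : Mean X) (n : ℕ) (c : ℝ≥0∞) (hc : c ≠ ∞) {F : List X → ℝ≥0∞}
    (h : ∀ l, l.length = n → F l ≤ c) : m.iter n F ≤ c :=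
  (m.iter_mono n h).trans (m.iter_const n c hc).le

lemma iter_sum (m : Mean X) (n : ℕ) {ι : Type*} (s : Finset ι) (F : ι → List X → ℝ≥0∞) :
    m.iter n (fun l => ∑ i ∈ s, F i l) = ∑ i ∈ s, m.iter n (F i) := by
  classical
  induction s using Finset.induction_on with
  | empty => simpa using m.iter_const n 0 (by simp)
  | insert a s ha ih =>
    simp only [Finset.sum_insert ha]
    rw [m.iter_add, ih]

lemma iter_append (m : Mean X) (a b : ℕ) : ∀ F : List X → ℝ≥0∞,
    m.iter (a + b) F = m.iter a (fun l => m.iter b (fun l' => F (l ++ l'))) := by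
  induction a with
  | zero => intro F; simp [iter_zero]
  | succ a ih =>
    intro F
    rw [show a + 1 + b = (a + b) + 1 by ring, iter_succ, iter_succ]
    refine m.congr fun x => ?_
    rw [ih]
    simp

lemma iter_one (m : Mean X) (F : List X → ℝ≥0∞) :
    m.iter 1 F = m.toFun (fun v => F [v]) := rfl

lemma iter_snoc (m : Mean X) (n : ℕ) (F : List X → ℝ≥0∞) :
    m.iter (n + 1) F = m.iter n (fun l => m.toFun (fun v => F (l ++ [v]))) := by
  rw [iter_append]; rfl

lemma exists_of_lt_iter (m : Mean X) (n : ℕ) {c : ℝ≥0∞} {F : List X → ℝ≥0∞}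
    (h : c < m.iter n F) : ∃ l, l.length = n ∧ c < F l := by
  by_contra hcon
  push Not at hcon
  have hc : c ≠ ∞ := ne_top_of_lt h
  exact absurd (m.iter_le_const n c hc hcon) (not_le.mpr h)

end Mean

end ProdSyn
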